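import Pool.Agent.Helper20.VF.GaussY

/-!
# Pedersen's sharp constant (MP_19c155_gt): definitions for the second region

Notation of the paper proof: `d = 2m`, `E = ℝ ζ ⊕ ℝ n ⊕ ℝ^d ∋ (z, τ, y)`.  An orthonormal family
`N_1, …, N_d` of skew operators on `E` in normal form is
`N_i (z, τ, y) = (-(a_i·y), -(b_i·y), z a_i + τ b_i + C_i y)`.
-/

open MeasureTheory Set Metric Filter Module Matrix
open scoped NNReal Topology RealInnerProductSpace ENNReal Real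

namespace Pool.Agent.Helper19.PS

open Pool.Agent.Helper20.VF (gm gw)

/-- The normal form of an orthonormal `d`-dimensional family of skew operators on `ℝ^(d+2)`
whose quadratic form `∑ |N_i e|²` has top eigenvector `ζ` with eigenvalue `d - be`. -/
structure NF (d : ℕ) where
  /-- `a i = N_i ζ` -/
  a : Fin d → Fin d → ℝ
  /-- `b i = N_i n` -/
  b : Fin d → Fin d → ℝ
  /-- the block of `N_i` on `ℝ^d` -/
  C : Fin d → Matrix (Fin d) (Fin d) ℝ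
  /-- the deficit `β` -/
  be : ℝ
  skew : ∀ i, (C i)ᵀ = -C i
  orth : ∀ i j, a i ⬝ᵥ a j + b i ⬝ᵥ b j + 1 / 2 * trace ((C i)ᵀ * C j) = if i = j then 1 else 0
  ab : ∑ i, b i ⬝ᵥ a i = 0
  Ca : ∑ i, C i *ᵥ a i = 0
  top : ∑ i, a i ⬝ᵥ a i = d - be

variable {d : ℕ}

/-- the `ℝ^d` component of `N_i (z, τ, y)`. -/
def NF.w (S : NF d) (z τ : ℝ) (y : Fin d → ℝ) (i : Fin d) : Fin d → ℝ :=
  z • S.a i + τ • S.b i + S.C i *ᵥ y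

/-- the Gram matrix `⟨N_i e, N_j e⟩`, `e = (z, τ, y)`. -/
def NF.G (S : NF d) (z τ : ℝ) (y : Fin d → ℝ) : Matrix (Fin d) (Fin d) ℝ :=
  Matrix.of fun i j => S.w z τ y i ⬝ᵥ S.w z τ y j + (S.a i ⬝ᵥ y) * (S.a j ⬝ᵥ y)
    + (S.b i ⬝ᵥ y) * (S.b j ⬝ᵥ y)

/-- the form `𝔅(τ, y) = ∑ (b_i·y)² + |τ b_i + C_i y|²`. -/
def NF.BB (S : NF d) (τ : ℝ) (y : Fin d → ℝ) : ℝ :=
  ∑ i, ((S.b i ⬝ᵥ y) ^ 2 + (τ • S.b i + S.C i *ᵥ y) ⬝ᵥ (τ • S.b i + S.C i *ᵥ y))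

/-- `∑ (a_i·y)²`. -/
def NF.pp (S : NF d) (y : Fin d → ℝ) : ℝ := ∑ i, (S.a i ⬝ᵥ y) ^ 2

/-- `∑ (a_i·y)(b_i·y)`. -/
def NF.SS (S : NF d) (y : Fin d → ℝ) : ℝ := ∑ i, (S.a i ⬝ᵥ y) * (S.b i ⬝ᵥ y)

/-- the odd term of the pointwise bound. -/
noncomputable def NF.oo (S : NF d) (c z τ : ℝ) (y : Fin d → ℝ) : ℝ :=
  -(2 * (1 - c) * z * τ * S.SS y / (z ^ 2 + y ⬝ᵥ y))

/-- the symmetrised form `cY + 𝔅`. -/
def NF.RS (S : NF d) (c τ : ℝ) (y : Fin d → ℝ) : ℝ :=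
  c * (y ⬝ᵥ y) + ∑ i, ((S.b i ⬝ᵥ y) ^ 2 + τ ^ 2 * (S.b i ⬝ᵥ S.b i)
    + (S.C i *ᵥ y) ⬝ᵥ (S.C i *ᵥ y))

/-- the third (second order) term of the bound, `Y = |y|²`. -/
noncomputable def h3 (d m : ℕ) (c e1 e3 be z τ Y : ℝ) : ℝ :=
  (m * (m - 1) / 2) / d ^ m * (√(z ^ 2 + c * Y))⁻¹
    * (e1 ^ 2 * (Y + τ ^ 2) ^ 2 + 4 * be * τ ^ 2 * z ^ 2)
    * ((d + 1) * z ^ 2 + e3 * (Y + τ ^ 2)) ^ (m - 2)

/-- the full bound function. -/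
noncomputable def NF.hh (S : NF d) (m : ℕ) (c z τ : ℝ) (y : Fin d → ℝ) : ℝ :=
  (1 - S.be / d) ^ m * |z| ^ (2 * m - 1) + 1 / 2 * |z| ^ (2 * m - 3) * S.RS c τ y
    + h3 d m c (S.be + c) (2 * S.be + c) S.be z τ (y ⬝ᵥ y)

/-- Gaussian integral over `(z, τ, y)`. -/
noncomputable def II (d : ℕ) (F : ℝ → ℝ → EuclideanSpace ℝ (Fin d) → ℝ) : ℝ≥0∞ :=
  ∫⁻ p : ℝ × ℝ, ∫⁻ y : EuclideanSpace ℝ (Fin d),
    ENNReal.ofReal (F p.1 p.2 y * (gw y * Real.exp (-(p.1 ^ 2 + p.2 ^ 2) / 2)))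

/-- the value of the Gaussian integral of `√det` for the family `N_i = a_i ∧ ζ`. -/
noncomputable def Kp (d : ℕ) : ℝ :=
  gm (2 * d) / gm (2 * d - 1) * (2 * gm (d - 1) * (2 * π) ^ (((d : ℝ) + 1) / 2))

/-- the sharp constant of the normalised bound. -/
noncomputable def KS (n : ℕ) : ℝ := gm (2 * n + 4) / gm (2 * n + 3) * Kp (n + 1)

/-- the threshold between the two regions. -/
noncomputable def be1 (d : ℕ) : ℝ := 3 * (d - 1) / (16 * d ^ 2)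

/-- the coordinate vector of `(z, τ, y)`. -/
def vec {d : ℕ} (z τ : ℝ) (y : Fin d → ℝ) : Fin 2 ⊕ Fin d → ℝ := Sum.elim ![z, τ] y

/-- Gaussian integral over `(τ, y)`. -/
noncomputable def JJ (d : ℕ) (F : ℝ → EuclideanSpace ℝ (Fin d) → ℝ) : ℝ≥0∞ :=
  ∫⁻ τ : ℝ, ∫⁻ y : EuclideanSpace ℝ (Fin d),
    ENNReal.ofReal (F τ y * (gw y * Real.exp (-τ ^ 2 / 2)))

/-- the skew operators of a pencil. -/
def NP {d : ℕ} (P₁ P₂ : Matrix (Fin d) (Fin d) ℝ) (a : Fin d → ℝ) (i : Fin d) :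
    Matrix (Fin 2 ⊕ Fin d) (Fin 2 ⊕ Fin d) ℝ :=
  Matrix.fromBlocks !![0, -(a i); a i, 0] (Matrix.of ![fun j => -(P₁ i j), fun j => -(P₂ i j)])
    (Matrix.of fun j => ![P₁ i j, P₂ i j]) 0

end Pool.Agent.Helper19.PS
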