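import Mathlib
import Pool.Agent.Helper66.PS.P16
import Pool.Agent.Helper19.PS.Defs

/-!
# PS-17: normal form of an orthonormal family of skew matrices
-/

open MeasureTheory Set Metric Filter Module Matrix
open scoped NNReal Topology RealInnerProductSpace ENNReal Real

namespace Pool.Agent.Helper19.PS

private theorem ps17_dot {ι : Type*} [Fintype ι] [DecidableEq ι] (O : Matrix ι ι ℝ)
    (hO : O * Oᵀ = 1) (u v : ι → ℝ) : (Oᵀ *ᵥ u) ⬝ᵥ (Oᵀ *ᵥ v) = u ⬝ᵥ v := by
  rw [Matrix.dotProduct_mulVec, Matrix.vecMul_transpose, Matrix.mulVec_mulVec, hO,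
    Matrix.one_mulVec]

private theorem ps17_entry {ι : Type*} [Fintype ι] [DecidableEq ι] (A : Matrix ι ι ℝ) (p q : ι) :
    (A *ᵥ Pi.single q 1) p = A p q := by
  simp

theorem exists_NF {d : ℕ} (N : Fin d → Matrix (Fin 2 ⊕ Fin d) (Fin 2 ⊕ Fin d) ℝ)
    (hskew : ∀ i, (N i)ᵀ = -N i)
    (horth : ∀ i j, trace ((N i)ᵀ * N j) = if i = j then 2 else 0)
    (ζ : Fin 2 ⊕ Fin d → ℝ) (hζ : ζ ⬝ᵥ ζ = 1) :
    ∃ (S : NF d) (O : Matrix (Fin 2 ⊕ Fin d) (Fin 2 ⊕ Fin d) ℝ), Oᵀ * O = 1 ∧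
      ∑ i, (N i *ᵥ ζ) ⬝ᵥ (N i *ᵥ ζ) ≤ d - S.be ∧
      ∀ (z τ : ℝ) (y : Fin d → ℝ) (i j : Fin d),
        (N i *ᵥ (O *ᵥ vec z τ y)) ⬝ᵥ (N j *ᵥ (O *ᵥ vec z τ y)) = S.G z τ y i j := by
  -- the quadratic form
  set T : Matrix (Fin 2 ⊕ Fin d) (Fin 2 ⊕ Fin d) ℝ := ∑ i, (N i)ᵀ * N i with hT
  have hTs : Tᵀ = T := by
    rw [hT, Matrix.transpose_sum]
    refine Finset.sum_congr rfl fun i _ => ?_
    rw [Matrix.transpose_mul, Matrix.transpose_transpose]
  have hTq : ∀ v : Fin 2 ⊕ Fin d → ℝ, v ⬝ᵥ (T *ᵥ v) = ∑ i, (N i *ᵥ v) ⬝ᵥ (N i *ᵥ v) := by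
    intro v
    rw [hT, Matrix.sum_mulVec, dotProduct_sum]
    refine Finset.sum_congr rfl fun i _ => ?_
    rw [← Matrix.mulVec_mulVec, Matrix.dotProduct_mulVec, Matrix.vecMul_transpose]
  obtain ⟨ξ, l, hξ, hTξ, hl⟩ := top_eigen T hTs ζ hζ
  obtain ⟨O, hO, hO0, hO1⟩ := exists_frame ξ hξ (fun i => N i *ᵥ ξ)
  have hO' : O * Oᵀ = 1 := mul_eq_one_comm.mp hO
  -- the rotated family
  set M : Fin d → Matrix (Fin 2 ⊕ Fin d) (Fin 2 ⊕ Fin d) ℝ := fun i => Oᵀ * N i * O with hM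
  have hMs : ∀ i, (M i)ᵀ = -M i := by
    intro i
    simp only [hM, Matrix.transpose_mul, Matrix.transpose_transpose, hskew, Matrix.mul_assoc]
    simp
  have hMs' : ∀ i p q, M i p q = -M i q p := by
    intro i p q
    have := congrFun (congrFun (hMs i) q) p
    simpa using this
  have hMtr : ∀ i j, trace ((M i)ᵀ * M j) = if i = j then 2 else 0 := by
    intro i j
    rw [← horth i j]
    have : (M i)ᵀ * M j = Oᵀ * (((N i)ᵀ * N j) * O) := by
      simp only [hM, Matrix.transpose_mul, Matrix.transpose_transpose]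
      calc Oᵀ * ((N i)ᵀ * O) * (Oᵀ * N j * O) = Oᵀ * ((N i)ᵀ * (O * Oᵀ) * N j * O) := by
            simp only [Matrix.mul_assoc]
        _ = _ := by rw [hO', Matrix.mul_one]
    rw [this, Matrix.trace_mul_comm, Matrix.mul_assoc, hO', Matrix.mul_one]
  have hMT : ∑ i, (M i)ᵀ * M i = Oᵀ * (T * O) := by
    rw [hT, Finset.sum_mul, Finset.mul_sum]
    refine Finset.sum_congr rfl fun i _ => ?_
    simp only [hM, Matrix.transpose_mul, Matrix.transpose_transpose]
    calc Oᵀ * ((N i)ᵀ * O) * (Oᵀ * N i * O) = Oᵀ * ((N i)ᵀ * (O * Oᵀ) * N i * O) := by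
          simp only [Matrix.mul_assoc]
      _ = _ := by rw [hO', Matrix.mul_one]
  -- first column of `Oᵀ T O`
  have hcol : (Oᵀ * (T * O)) *ᵥ Pi.single (Sum.inl 0) 1 = l • Pi.single (Sum.inl 0) (1 : ℝ) := by
    rw [← Matrix.mulVec_mulVec, ← Matrix.mulVec_mulVec, hO0, hTξ, Matrix.mulVec_smul, ← hO0,
      Matrix.mulVec_mulVec, hO, Matrix.one_mulVec]
  have hcolp : ∀ p, ∑ i, ∑ q, M i q p * M i q (Sum.inl 0)
      = l * (Pi.single (Sum.inl 0) (1 : ℝ) : Fin 2 ⊕ Fin d → ℝ) p := by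
    intro p
    have h1 := congrFun hcol p
    rw [← hMT, ps17_entry, Matrix.sum_apply] at h1
    simp only [Matrix.mul_apply, Matrix.transpose_apply, Pi.smul_apply, smul_eq_mul] at h1
    exact h1
  have hM00 : ∀ i, M i (Sum.inl 0) (Sum.inl 0) = 0 := by
    intro i; have := hMs' i (Sum.inl 0) (Sum.inl 0); linarith
  have hM11 : ∀ i, M i (Sum.inl 1) (Sum.inl 1) = 0 := by
    intro i; have := hMs' i (Sum.inl 1) (Sum.inl 1); linarith
  have hM10 : ∀ i, M i (Sum.inl 1) (Sum.inl 0) = 0 := by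
    intro i
    have h1 := hO1 i
    have h2 : M i (Sum.inl 1) (Sum.inl 0)
        = Pi.single (Sum.inl 1) 1 ⬝ᵥ (M i *ᵥ Pi.single (Sum.inl 0) 1) := by
      rw [single_dotProduct, one_mul, ps17_entry]
    rw [h2]
    simp only [hM]
    rw [← Matrix.mulVec_mulVec, hO0, ← Matrix.mulVec_mulVec, Matrix.dotProduct_mulVec,
      Matrix.vecMul_transpose]
    exact h1
  have hM01 : ∀ i, M i (Sum.inl 0) (Sum.inl 1) = 0 := by
    intro i; rw [hMs', hM10, neg_zero]
  -- the blocks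
  set a : Fin d → Fin d → ℝ := fun i k => M i (Sum.inr k) (Sum.inl 0) with ha
  set b : Fin d → Fin d → ℝ := fun i k => M i (Sum.inr k) (Sum.inl 1) with hb
  set C : Fin d → Matrix (Fin d) (Fin d) ℝ := fun i =>
    Matrix.of fun k k' => M i (Sum.inr k) (Sum.inr k') with hC
  have hla : ∑ i, a i ⬝ᵥ a i = l := by
    have h1 := hcolp (Sum.inl 0)
    simp only [Fintype.sum_sum_type, Fin.sum_univ_two, hM00, hM10, Pi.single_eq_same,
      mul_zero, zero_add, mul_one] at h1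
    simp only [dotProduct, ha]
    exact h1
  have horthM : ∀ i j, a i ⬝ᵥ a j + b i ⬝ᵥ b j + 1 / 2 * trace ((C i)ᵀ * C j)
      = if i = j then 1 else 0 := by
    intro i j
    have h1 := hMtr i j
    simp only [Matrix.trace, Matrix.diag, Matrix.mul_apply, Matrix.transpose_apply,
      Fintype.sum_sum_type, Fin.sum_univ_two, hM00, hM10, hM11, hM01] at h1
    have h2 : ∀ k, M i (Sum.inl 0) (Sum.inr k) * M j (Sum.inl 0) (Sum.inr k)
        = a i k * a j k := by
      intro k; simp only [ha]; rw [hMs' i, hMs' j]; ring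
    have h3 : ∀ k, M i (Sum.inl 1) (Sum.inr k) * M j (Sum.inl 1) (Sum.inr k)
        = b i k * b j k := by
      intro k; simp only [hb]; rw [hMs' i, hMs' j]; ring
    simp only [h2, h3, Finset.sum_add_distrib] at h1
    simp only [dotProduct, Matrix.trace, Matrix.diag, Matrix.mul_apply, Matrix.transpose_apply,
      hC, Matrix.of_apply]
    have h4 : ∑ k, M i (Sum.inr k) (Sum.inl 0) * M j (Sum.inr k) (Sum.inl 0)
        = ∑ k, a i k * a j k := rfl
    have h5 : ∑ k, M i (Sum.inr k) (Sum.inl 1) * M j (Sum.inr k) (Sum.inl 1)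
        = ∑ k, b i k * b j k := rfl
    rw [h4, h5] at h1
    split_ifs with hij
    · rw [if_pos hij] at h1
      linarith
    · rw [if_neg hij] at h1
      linarith
  refine ⟨⟨a, b, C, d - l, ?_, horthM, ?_, ?_, ?_⟩, O, hO, ?_, ?_⟩
  · intro i
    ext p q
    simp only [hC, Matrix.transpose_apply, Matrix.of_apply, Matrix.neg_apply]
    exact hMs' i _ _
  · have h1 := hcolp (Sum.inl 1)
    simp only [Fintype.sum_sum_type, Fin.sum_univ_two, hM00, hM10, hM11, hM01] at h1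
    have h0 : (Pi.single (Sum.inl 0) (1 : ℝ) : Fin 2 ⊕ Fin d → ℝ) (Sum.inl 1) = 0 := by
      simp
    rw [h0] at h1
    simp only [mul_zero, zero_add] at h1
    simp only [dotProduct, ha, hb]
    exact h1
  · ext k
    have h1 := hcolp (Sum.inr k)
    simp only [Fintype.sum_sum_type, Fin.sum_univ_two, hM00, hM10] at h1
    have h0 : (Pi.single (Sum.inl 0) (1 : ℝ) : Fin 2 ⊕ Fin d → ℝ) (Sum.inr k) = 0 := by
      simp
    rw [h0] at h1
    have h2 : ∀ i x, M i (Sum.inr x) (Sum.inr k) * M i (Sum.inr x) (Sum.inl 0)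
        = -(M i (Sum.inr k) (Sum.inr x) * M i (Sum.inr x) (Sum.inl 0)) := by
      intro i x; rw [hMs' i (Sum.inr x) (Sum.inr k)]; ring
    simp only [h2, Finset.sum_neg_distrib, mul_zero, zero_add] at h1
    simp only [Finset.sum_apply, Matrix.mulVec, dotProduct, hC, ha, Matrix.of_apply,
      Pi.zero_apply]
    linarith
  · rw [hla]; ring
  · have h1 := hTq ζ
    rw [← h1]
    simp only
    linarith
  · intro z τ y i j
    have hv : ∀ i, Oᵀ *ᵥ (N i *ᵥ (O *ᵥ vec z τ y)) = M i *ᵥ vec z τ y := by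
      intro i
      simp only [hM]
      rw [Matrix.mulVec_mulVec, Matrix.mulVec_mulVec, Matrix.mul_assoc]
    rw [← ps17_dot O hO', hv, hv]
    have e0 : ∀ i, (M i *ᵥ vec z τ y) (Sum.inl 0) = -(a i ⬝ᵥ y) := by
      intro i
      simp only [Matrix.mulVec, dotProduct, Fintype.sum_sum_type, Fin.sum_univ_two, vec,
        Sum.elim_inl, Sum.elim_inr, hM00, hM01, ha]
      have : ∀ x, M i (Sum.inl 0) (Sum.inr x) * y x = -(M i (Sum.inr x) (Sum.inl 0) * y x) := by
        intro x; rw [hMs' i (Sum.inl 0) (Sum.inr x)]; ring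
      simp only [this, Finset.sum_neg_distrib]
      simp
    have e1 : ∀ i, (M i *ᵥ vec z τ y) (Sum.inl 1) = -(b i ⬝ᵥ y) := by
      intro i
      simp only [Matrix.mulVec, dotProduct, Fintype.sum_sum_type, Fin.sum_univ_two, vec,
        Sum.elim_inl, Sum.elim_inr, hM10, hM11, hb]
      have : ∀ x, M i (Sum.inl 1) (Sum.inr x) * y x = -(M i (Sum.inr x) (Sum.inl 1) * y x) := by
        intro x; rw [hMs' i (Sum.inl 1) (Sum.inr x)]; ring
      simp only [this, Finset.sum_neg_distrib]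
      simp
    have e2 : ∀ i k, (M i *ᵥ vec z τ y) (Sum.inr k) = (z • a i + τ • b i + C i *ᵥ y) k := by
      intro i k
      simp only [Matrix.mulVec, dotProduct, Fintype.sum_sum_type, Fin.sum_univ_two, vec,
        Sum.elim_inl, Sum.elim_inr, ha, hb, hC, Pi.add_apply, Pi.smul_apply, smul_eq_mul,
        Matrix.of_apply]
      simp
      ring
    simp only [NF.G, NF.w, Matrix.of_apply]
    rw [dotProduct, Fintype.sum_sum_type, Fin.sum_univ_two]
    simp only [e0, e1, e2]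
    simp only [dotProduct]
    ring

end Pool.Agent.Helper19.PS
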