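import Pool.Agent.Helper30.PS.P2

/-!
# PS-5: bounds for the odd term, elementary power inequalities
-/

open MeasureTheory Set Metric Filter Module Matrix
open scoped NNReal Topology RealInnerProductSpace ENNReal Real

namespace Pool.Agent.Helper19.PS

private theorem ps5_aux {be c z τ s p Y : ℝ} (hbe : 0 ≤ be) (hc0 : 0 ≤ c) (hc1 : c ≤ 1)
    (hY : 0 ≤ Y) (hpp : p ≤ Y) (hSS : s ^ 2 ≤ p * (be * Y)) :
    (-(2 * (1 - c) * z * τ * s / (z ^ 2 + Y))) ^ 2 ≤ 4 * be * τ ^ 2 * z ^ 2 := by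
  have hs2 : s ^ 2 ≤ be * Y ^ 2 := by
    have h1 : p * (be * Y) ≤ Y * (be * Y) := mul_le_mul_of_nonneg_right hpp (mul_nonneg hbe hY)
    nlinarith
  rcases eq_or_lt_of_le (add_nonneg (sq_nonneg z) hY) with h0 | h0
  · rw [← h0, div_zero, neg_zero, zero_pow two_ne_zero]
    positivity
  · rw [neg_sq, div_pow, div_le_iff₀ (by positivity)]
    have h1 : (1 - c) ^ 2 ≤ 1 := by nlinarith
    have h2 : s ^ 2 ≤ be * (z ^ 2 + Y) ^ 2 := by
      refine hs2.trans (mul_le_mul_of_nonneg_left ?_ hbe)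
      nlinarith [sq_nonneg z]
    calc (2 * (1 - c) * z * τ * s) ^ 2 = (1 - c) ^ 2 * (4 * τ ^ 2 * z ^ 2) * s ^ 2 := by ring
      _ ≤ 1 * (4 * τ ^ 2 * z ^ 2) * (be * (z ^ 2 + Y) ^ 2) := by
        apply mul_le_mul _ h2 (sq_nonneg s) (by positivity)
        exact mul_le_mul_of_nonneg_right h1 (by positivity)
      _ = 4 * be * τ ^ 2 * z ^ 2 * (z ^ 2 + Y) ^ 2 := by ring

theorem NF.oo_sq {d : ℕ} (S : NF d) (c : ℝ) (hc0 : 0 ≤ c) (hc1 : c ≤ 1) (z τ : ℝ)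
    (y : Fin d → ℝ) : S.oo c z τ y ^ 2 ≤ 4 * S.be * τ ^ 2 * z ^ 2 := by
  have hY : 0 ≤ y ⬝ᵥ y := by
    unfold dotProduct
    exact Finset.sum_nonneg fun i _ => mul_self_nonneg (y i)
  exact ps5_aux (NF.be_nonneg S) hc0 hc1 hY (NF.pp_le S y) (NF.SS_sq S y)

theorem NF.oo_abs {d : ℕ} (S : NF d) (c : ℝ) (hc0 : 0 ≤ c) (hc1 : c ≤ 1) (z τ : ℝ)
    (y : Fin d → ℝ) : |S.oo c z τ y| ≤ z ^ 2 + S.be * τ ^ 2 := by
  have hbe : 0 ≤ S.be := NF.be_nonneg S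
  have h1 := NF.oo_sq S c hc0 hc1 z τ y
  apply abs_le_of_sq_le_sq _ (by positivity)
  nlinarith [sq_nonneg (z ^ 2 - S.be * τ ^ 2)]

private theorem ps5_norms {M o : ℝ} (hM : 0 ≤ M) (m : ℕ) :
    |(M + o) ^ m + (M - o) ^ m| ≤ 2 * (M + |o|) ^ m := by
  have h1 : |M + o| ≤ M + |o| := (abs_add_le M o).trans (by rw [abs_of_nonneg hM])
  have h2 : |M - o| ≤ M + |o| := (abs_sub M o).trans (by rw [abs_of_nonneg hM])
  calc |(M + o) ^ m + (M - o) ^ m| ≤ |(M + o) ^ m| + |(M - o) ^ m| := abs_add_le _ _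
    _ = |M + o| ^ m + |M - o| ^ m := by rw [abs_pow, abs_pow]
    _ ≤ (M + |o|) ^ m + (M + |o|) ^ m :=
      add_le_add (pow_le_pow_left₀ (abs_nonneg _) h1 m) (pow_le_pow_left₀ (abs_nonneg _) h2 m)
    _ = 2 * (M + |o|) ^ m := by ring

private theorem ps5_odd {M o : ℝ} (hM : 0 ≤ M) (m : ℕ) :
    |(M + o) ^ (m + 1) - (M - o) ^ (m + 1)| ≤ 2 * (m + 1) * |o| * (M + |o|) ^ m := by
  induction m with
  | zero =>
    have e1 : (M + o) ^ (0 + 1) - (M - o) ^ (0 + 1) = 2 * o := by ring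
    rw [e1, abs_mul, abs_two]
    simp
  | succ m ih =>
    have e1 : (M + o) ^ (m + 1 + 1) - (M - o) ^ (m + 1 + 1) =
        M * ((M + o) ^ (m + 1) - (M - o) ^ (m + 1)) +
          o * ((M + o) ^ (m + 1) + (M - o) ^ (m + 1)) := by ring
    rw [e1]
    have hN : 0 ≤ M + |o| := add_nonneg hM (abs_nonneg o)
    have h1 : |M * ((M + o) ^ (m + 1) - (M - o) ^ (m + 1))| ≤
        (M + |o|) * (2 * (m + 1) * |o| * (M + |o|) ^ m) := by
      rw [abs_mul, abs_of_nonneg hM]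
      exact mul_le_mul (by linarith [abs_nonneg o]) ih (abs_nonneg _) hN
    have h2 : |o * ((M + o) ^ (m + 1) + (M - o) ^ (m + 1))| ≤ |o| * (2 * (M + |o|) ^ (m + 1)) := by
      rw [abs_mul]
      exact mul_le_mul_of_nonneg_left (ps5_norms hM (m + 1)) (abs_nonneg o)
    refine (abs_add_le _ _).trans ((add_le_add h1 h2).trans (le_of_eq ?_))
    push_cast
    ring

private theorem ps5_even {M o : ℝ} (hM : 0 ≤ M) (m : ℕ) :
    (M + o) ^ (m + 2) + (M - o) ^ (m + 2) ≤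
      2 * M ^ (m + 2) + (m + 2) * (m + 1) * o ^ 2 * (M + |o|) ^ m := by
  induction m with
  | zero =>
    apply le_of_eq
    push_cast
    ring
  | succ m ih =>
    have hN : 0 ≤ M + |o| := add_nonneg hM (abs_nonneg o)
    have e1 : (M + o) ^ (m + 1 + 2) + (M - o) ^ (m + 1 + 2) =
        M * ((M + o) ^ (m + 2) + (M - o) ^ (m + 2)) +
          o * ((M + o) ^ (m + 1 + 1) - (M - o) ^ (m + 1 + 1)) := by ring
    rw [e1]
    have h1 : M * ((M + o) ^ (m + 2) + (M - o) ^ (m + 2)) ≤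
        M * (2 * M ^ (m + 2)) + (M + |o|) * ((m + 2) * (m + 1) * o ^ 2 * (M + |o|) ^ m) := by
      refine (mul_le_mul_of_nonneg_left ih hM).trans ?_
      rw [mul_add]
      refine add_le_add le_rfl (mul_le_mul_of_nonneg_right (by linarith [abs_nonneg o]) ?_)
      positivity
    have h2 : o * ((M + o) ^ (m + 1 + 1) - (M - o) ^ (m + 1 + 1)) ≤
        |o| * (2 * ((m + 1 : ℕ) + 1) * |o| * (M + |o|) ^ (m + 1)) := by
      refine (le_abs_self _).trans ?_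
      rw [abs_mul]
      exact mul_le_mul_of_nonneg_left (ps5_odd hM (m + 1)) (abs_nonneg o)
    have h3 : |o| * (2 * ((m + 1 : ℕ) + 1) * |o| * (M + |o|) ^ (m + 1)) =
        2 * ((m + 1 : ℕ) + 1) * o ^ 2 * (M + |o|) ^ (m + 1) := by
      have : |o| * |o| = o ^ 2 := by rw [← sq, sq_abs]
      rw [← this]; ring
    rw [h3] at h2
    refine (add_le_add h1 h2).trans (le_of_eq ?_)
    push_cast
    ring

/-- elementary -/
theorem pow_even_taylor (m : ℕ) (hm : 2 ≤ m) (M o : ℝ) (hM : 0 ≤ M) :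
    (M + o) ^ m + (M - o) ^ m ≤ 2 * M ^ m + m * (m - 1) * o ^ 2 * (M + |o|) ^ (m - 2) := by
  obtain ⟨k, rfl⟩ := Nat.exists_eq_add_of_le hm
  rw [show 2 + k = k + 2 by ring]
  refine (ps5_even hM k).trans (le_of_eq ?_)
  rw [show k + 2 - 2 = k by omega]
  push_cast
  ring

/-- elementary -/
theorem pow_taylor (m : ℕ) (hm : 2 ≤ m) (x R : ℝ) (hx : 0 ≤ x) (hR : 0 ≤ R) :
    (x + R) ^ m ≤ x ^ m + m * x ^ (m - 1) * R + m * (m - 1) / 2 * R ^ 2 * (x + R) ^ (m - 2) := by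
  obtain ⟨k, rfl⟩ := Nat.exists_eq_add_of_le hm
  rw [show 2 + k = k + 2 by ring, show k + 2 - 1 = k + 1 by omega, show k + 2 - 2 = k by omega]
  induction k with
  | zero =>
    apply le_of_eq
    push_cast
    ring
  | succ k ih =>
    have ih := ih (by omega)
    have h1 : (x + R) ^ (k + 1 + 2) ≤ (x + R) * (x ^ (k + 2) + ((k + 2 : ℕ) : ℝ) * x ^ (k + 1) * R
        + ((k + 2 : ℕ) : ℝ) * (((k + 2 : ℕ) : ℝ) - 1) / 2 * R ^ 2 * (x + R) ^ k) := by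
      calc (x + R) ^ (k + 1 + 2) = (x + R) * (x + R) ^ (k + 2) := by ring
        _ ≤ _ := mul_le_mul_of_nonneg_left ih (by linarith)
    refine h1.trans ?_
    have h2 : x ^ (k + 1) ≤ (x + R) ^ (k + 1) := pow_le_pow_left₀ hx (by linarith) _
    have h3 : 0 ≤ ((k : ℝ) + 2) * R ^ 2 * ((x + R) ^ (k + 1) - x ^ (k + 1)) :=
      mul_nonneg (by positivity) (by linarith)
    push_cast
    have e1 : x ^ (k + 1 + 2) + (↑k + 1 + 2) * x ^ (k + 1 + 1) * R +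
        (↑k + 1 + 2) * (↑k + 1 + 2 - 1) / 2 * R ^ 2 * (x + R) ^ (k + 1) -
        (x + R) * (x ^ (k + 2) + (↑k + 2) * x ^ (k + 1) * R +
          (↑k + 2) * (↑k + 2 - 1) / 2 * R ^ 2 * (x + R) ^ k) =
        ((k : ℝ) + 2) * R ^ 2 * ((x + R) ^ (k + 1) - x ^ (k + 1)) := by
      ring
    linarith

end Pool.Agent.Helper19.PS
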