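import Pool.Agent.Helper19.PS.P4
import Pool.Agent.Helper19.PS.P5

/-!
# Project PS (MP_19c155_gt), piece PS-6: `NF.sym_bound`
-/

open MeasureTheory Set Metric Filter Module Matrix
open scoped NNReal Topology RealInnerProductSpace ENNReal Real

namespace Pool.Agent.Helper19.PS

private theorem ps6_real (m : ℕ) (hm : 3 ≤ m) (D be c z τ Y B o : ℝ) (hD : D = 2 * m)
    (hbe0 : 0 ≤ be) (hbe1 : be ≤ D) (hc0 : 0 ≤ c) (hz : z ≠ 0) (hY : 0 ≤ Y) (hB0 : 0 ≤ B)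
    (hB : B ≤ be * (τ ^ 2 + Y)) (ho2 : o ^ 2 ≤ 4 * be * τ ^ 2 * z ^ 2)
    (ho : |o| ≤ z ^ 2 + be * τ ^ 2) :
    (√(z ^ 2 + c * Y))⁻¹ * ((((D - be) * z ^ 2 + c * Y + B + o) / D) ^ m
        + (((D - be) * z ^ 2 + c * Y + B - o) / D) ^ m)
      ≤ 2 * ((1 - be / D) ^ m * |z| ^ (2 * m - 1)) + |z| ^ (2 * m - 3) * (c * Y + B)
        + 2 * ((m * (m - 1) / 2) / D ^ m * (√(z ^ 2 + c * Y))⁻¹
            * ((be + c) ^ 2 * (Y + τ ^ 2) ^ 2 + 4 * be * τ ^ 2 * z ^ 2)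
            * ((D + 1) * z ^ 2 + (2 * be + c) * (Y + τ ^ 2)) ^ (m - 2)) := by
  have hm' : (3 : ℝ) ≤ m := by exact_mod_cast hm
  have hDpos : 0 < D := by rw [hD]; linarith
  have hDm : 0 < D ^ m := pow_pos hDpos m
  have hzp : 0 < |z| := abs_pos.2 hz
  have hz2 : |z| ^ 2 = z ^ 2 := sq_abs z
  set W : ℝ := Y + τ ^ 2 with hW
  have hW0 : 0 ≤ W := by positivity
  set x : ℝ := (D - be) * z ^ 2 with hx
  have hx0 : 0 ≤ x := mul_nonneg (by linarith) (sq_nonneg z)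
  set R : ℝ := c * Y + B with hR
  have hR0 : 0 ≤ R := by positivity
  have hcY : 0 ≤ c * Y := mul_nonneg hc0 hY
  set Q : ℝ := (D + 1) * z ^ 2 + (2 * be + c) * W with hQ
  have hM : (D - be) * z ^ 2 + c * Y + B = x + R := by rw [hx, hR]; ring
  have hRle : R ≤ (be + c) * W := by
    have h1 : 0 ≤ c * τ ^ 2 := mul_nonneg hc0 (sq_nonneg τ)
    rw [hR, hW]; nlinarith
  have hbeW : 0 ≤ be * W := mul_nonneg hbe0 hW0
  have hbez : 0 ≤ be * z ^ 2 := mul_nonneg hbe0 (sq_nonneg z)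
  have hbet : be * τ ^ 2 ≤ be * W := by
    apply mul_le_mul_of_nonneg_left _ hbe0
    rw [hW]; linarith
  have hMo : x + R + |o| ≤ Q := by
    rw [hQ, hx]; nlinarith
  have hMQ : x + R ≤ Q := le_trans (by linarith [abs_nonneg o]) hMo
  have hM0 : 0 ≤ x + R := by linarith
  have hQ0 : 0 ≤ Q := le_trans hM0 hMQ
  have hp1 : (x + R + |o|) ^ (m - 2) ≤ Q ^ (m - 2) :=
    pow_le_pow_left₀ (by linarith [abs_nonneg o]) hMo _
  have hp2 : (x + R) ^ (m - 2) ≤ Q ^ (m - 2) := pow_le_pow_left₀ hM0 hMQ _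
  have hQp : 0 ≤ Q ^ (m - 2) := pow_nonneg hQ0 _
  have hR2 : R ^ 2 ≤ (be + c) ^ 2 * W ^ 2 := by
    rw [← mul_pow]; exact pow_le_pow_left₀ hR0 hRle 2
  have hmm : 0 ≤ (m : ℝ) * (m - 1) := by nlinarith
  have hT1 := pow_even_taylor m (by omega) (x + R) o hM0
  have hT2 := pow_taylor m (by omega) x R hx0 hR0
  have hA1 : o ^ 2 * (x + R + |o|) ^ (m - 2) ≤ 4 * be * τ ^ 2 * z ^ 2 * Q ^ (m - 2) :=
    mul_le_mul ho2 hp1 (pow_nonneg (by linarith [abs_nonneg o]) _) (le_trans (sq_nonneg o) ho2)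
  have hA2 : R ^ 2 * (x + R) ^ (m - 2) ≤ (be + c) ^ 2 * W ^ 2 * Q ^ (m - 2) :=
    mul_le_mul hR2 hp2 (pow_nonneg hM0 _) (by positivity)
  have hmain : (x + R + o) ^ m + (x + R - o) ^ m
      ≤ 2 * x ^ m + 2 * m * x ^ (m - 1) * R
        + m * (m - 1) * (((be + c) ^ 2 * W ^ 2 + 4 * be * τ ^ 2 * z ^ 2) * Q ^ (m - 2)) := by
    have e1 := mul_le_mul_of_nonneg_left hA1 hmm
    have e2 := mul_le_mul_of_nonneg_left hA2 hmm
    calc (x + R + o) ^ m + (x + R - o) ^ m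
        ≤ 2 * (x + R) ^ m + m * (m - 1) * o ^ 2 * (x + R + |o|) ^ (m - 2) := hT1
      _ ≤ 2 * (x ^ m + m * x ^ (m - 1) * R + m * (m - 1) / 2 * R ^ 2 * (x + R) ^ (m - 2))
          + m * (m - 1) * o ^ 2 * (x + R + |o|) ^ (m - 2) := by linarith only [hT2]
      _ = 2 * x ^ m + 2 * m * x ^ (m - 1) * R
          + (m * (m - 1) * (R ^ 2 * (x + R) ^ (m - 2))
          + m * (m - 1) * (o ^ 2 * (x + R + |o|) ^ (m - 2))) := by ring
      _ ≤ 2 * x ^ m + 2 * m * x ^ (m - 1) * R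
          + (m * (m - 1) * ((be + c) ^ 2 * W ^ 2 * Q ^ (m - 2))
          + m * (m - 1) * (4 * be * τ ^ 2 * z ^ 2 * Q ^ (m - 2))) :=
          add_le_add le_rfl (add_le_add e2 e1)
      _ = _ := by ring
  -- the weight
  have hs0 : 0 ≤ (√(z ^ 2 + c * Y))⁻¹ := inv_nonneg.2 (Real.sqrt_nonneg _)
  have hsz : (√(z ^ 2 + c * Y))⁻¹ ≤ |z|⁻¹ := by
    apply inv_anti₀ hzp
    rw [← Real.sqrt_sq_eq_abs]
    exact Real.sqrt_le_sqrt (by linarith)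
  set s : ℝ := (√(z ^ 2 + c * Y))⁻¹ with hs
  have hxm : |z|⁻¹ * (x ^ m / D ^ m) = (1 - be / D) ^ m * |z| ^ (2 * m - 1) := by
    have h1 : x = D * (1 - be / D) * |z| ^ 2 := by
      rw [hx, hz2]; field_simp
    have h2 : |z| ^ (2 * m - 1) * |z| = |z| ^ (2 * m) := by
      rw [← pow_succ]; congr 1; omega
    have h3 : x ^ m = D ^ m * (1 - be / D) ^ m * (|z| ^ (2 * m - 1) * |z|) := by
      rw [h1, mul_pow, mul_pow, h2, ← pow_mul]
    rw [h3]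
    field_simp
  have hxm1 : |z|⁻¹ * (2 * m * x ^ (m - 1) * R / D ^ m) ≤ |z| ^ (2 * m - 3) * R := by
    have h1 : x = D * (1 - be / D) * |z| ^ 2 := by
      rw [hx, hz2]; field_simp
    have h2 : |z| ^ (2 * m - 3) * |z| = |z| ^ (2 * (m - 1)) := by
      rw [← pow_succ]; congr 1; omega
    have h3 : x ^ (m - 1) = D ^ (m - 1) * (1 - be / D) ^ (m - 1) * (|z| ^ (2 * m - 3) * |z|) := by
      rw [h1, mul_pow, mul_pow, h2, ← pow_mul]
    have h4 : D ^ m = D ^ (m - 1) * D := by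
      rw [← pow_succ]; congr 1; omega
    have h5 : |z|⁻¹ * (2 * m * x ^ (m - 1) * R / D ^ m)
        = (1 - be / D) ^ (m - 1) * (|z| ^ (2 * m - 3) * R) := by
      rw [h3, h4, hD]
      have : (m : ℝ) ≠ 0 := by linarith
      field_simp
    rw [h5]
    have h6 : (1 - be / D) ^ (m - 1) ≤ 1 := by
      apply pow_le_one₀
      · rw [sub_nonneg, div_le_one hDpos]; exact hbe1
      · have : 0 ≤ be / D := div_nonneg hbe0 hDpos.le
        linarith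
    have h7 : 0 ≤ |z| ^ (2 * m - 3) * R := by positivity
    exact mul_le_of_le_one_left h7 h6
  calc s * ((((D - be) * z ^ 2 + c * Y + B + o) / D) ^ m
        + (((D - be) * z ^ 2 + c * Y + B - o) / D) ^ m)
      = s * (((x + R + o) ^ m + (x + R - o) ^ m) / D ^ m) := by
        rw [hM, div_pow, div_pow, add_div]
    _ ≤ s * ((2 * x ^ m + 2 * m * x ^ (m - 1) * R
        + m * (m - 1) * (((be + c) ^ 2 * W ^ 2 + 4 * be * τ ^ 2 * z ^ 2) * Q ^ (m - 2))) / D ^ m) := by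
        gcongr
    _ = s * ((2 * x ^ m + 2 * m * x ^ (m - 1) * R) / D ^ m)
        + 2 * ((m * (m - 1) / 2) / D ^ m * s
            * ((be + c) ^ 2 * W ^ 2 + 4 * be * τ ^ 2 * z ^ 2) * Q ^ (m - 2)) := by
        ring
    _ ≤ |z|⁻¹ * ((2 * x ^ m + 2 * m * x ^ (m - 1) * R) / D ^ m)
        + 2 * ((m * (m - 1) / 2) / D ^ m * s
            * ((be + c) ^ 2 * W ^ 2 + 4 * be * τ ^ 2 * z ^ 2) * Q ^ (m - 2)) := by
        have : 0 ≤ (2 * x ^ m + 2 * m * x ^ (m - 1) * R) / D ^ m := by positivity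
        have := mul_le_mul_of_nonneg_right hsz this
        linarith
    _ = 2 * (|z|⁻¹ * (x ^ m / D ^ m)) + |z|⁻¹ * (2 * m * x ^ (m - 1) * R / D ^ m)
        + 2 * ((m * (m - 1) / 2) / D ^ m * s
            * ((be + c) ^ 2 * W ^ 2 + 4 * be * τ ^ 2 * z ^ 2) * Q ^ (m - 2)) := by
        ring
    _ ≤ _ := by
        rw [hxm]
        linarith

private theorem ps6_dot_self_nonneg {n : ℕ} (v : Fin n → ℝ) : 0 ≤ v ⬝ᵥ v := by
  rw [dotProduct]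
  exact Finset.sum_nonneg fun i _ => mul_self_nonneg _

private theorem ps6_BB_nonneg {d : ℕ} (S : NF d) (τ : ℝ) (y : Fin d → ℝ) : 0 ≤ S.BB τ y :=
  Finset.sum_nonneg fun _ _ => add_nonneg (sq_nonneg _) (ps6_dot_self_nonneg _)

private theorem ps6_pair {d : ℕ} (S : NF d) (m : ℕ) (hd : d = 2 * m) (hm : 3 ≤ m) (c : ℝ)
    (hc0 : 0 ≤ c) (hc1 : c ≤ 1) (z τ : ℝ) (hz : z ≠ 0) (y : Fin d → ℝ) :
    √(S.G z τ y).det + √(S.G (-z) τ y).det
      ≤ √(z ^ 2 + y ⬝ᵥ y) * (2 * ((1 - S.be / d) ^ m * |z| ^ (2 * m - 1))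
        + |z| ^ (2 * m - 3) * (c * (y ⬝ᵥ y) + S.BB τ y)
        + 2 * h3 d m c (S.be + c) (2 * S.be + c) S.be z τ (y ⬝ᵥ y)) := by
  have hD : (d : ℝ) = 2 * m := by rw [hd]; push_cast; ring
  have hp := (NF.pointwise S m hd (by omega) c hc0 hc1 z τ hz y).2
  have hn := (NF.pointwise S m hd (by omega) c hc0 hc1 (-z) τ (neg_ne_zero.2 hz) y).2
  have hoo : S.oo c (-z) τ y = -S.oo c z τ y := by
    simp only [NF.oo, neg_sq]; ring
  rw [hoo, neg_sq, ← sub_eq_add_neg] at hn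
  have hr := ps6_real m hm (d : ℝ) S.be c z τ (y ⬝ᵥ y) (S.BB τ y) (S.oo c z τ y) hD
    (NF.be_nonneg S) (NF.be_le S) hc0 hz (ps6_dot_self_nonneg y) (ps6_BB_nonneg S τ y)
    (NF.BB_le S τ y) (NF.oo_sq S c hc0 hc1 z τ y) (NF.oo_abs S c hc0 hc1 z τ y)
  have hs : 0 ≤ √(z ^ 2 + y ⬝ᵥ y) := Real.sqrt_nonneg _
  have hr' := mul_le_mul_of_nonneg_left hr hs
  refine le_trans (add_le_add hp hn) (le_trans (le_of_eq ?_) hr')
  rw [div_eq_mul_inv]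
  ring

theorem NF.sym_bound {d : ℕ} (S : NF d) (m : ℕ) (hd : d = 2 * m) (hm : 3 ≤ m) (c : ℝ)
    (hc0 : 0 ≤ c) (hc1 : c ≤ 1) (z τ : ℝ) (hz : z ≠ 0) (y : Fin d → ℝ) :
    √(S.G z τ y).det + √(S.G (-z) τ y).det + √(S.G z (-τ) y).det + √(S.G (-z) (-τ) y).det
      ≤ 4 * (√(z ^ 2 + y ⬝ᵥ y) * S.hh m c z τ y) := by
  have h1 := ps6_pair S m hd hm c hc0 hc1 z τ hz y
  have h2 := ps6_pair S m hd hm c hc0 hc1 z (-τ) hz y
  have h3' : h3 d m c (S.be + c) (2 * S.be + c) S.be z (-τ) (y ⬝ᵥ y)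
      = h3 d m c (S.be + c) (2 * S.be + c) S.be z τ (y ⬝ᵥ y) := by
    simp only [h3, neg_sq]
  have hBB : S.BB τ y + S.BB (-τ) y = 2 * ∑ i, ((S.b i ⬝ᵥ y) ^ 2 + τ ^ 2 * (S.b i ⬝ᵥ S.b i)
      + (S.C i *ᵥ y) ⬝ᵥ (S.C i *ᵥ y)) := by
    simp only [NF.BB]
    rw [← Finset.sum_add_distrib, Finset.mul_sum]
    refine Finset.sum_congr rfl fun i _ => ?_
    simp only [add_dotProduct, dotProduct_add, smul_dotProduct, dotProduct_smul, smul_eq_mul]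
    rw [dotProduct_comm (S.C i *ᵥ y) (S.b i)]
    ring
  rw [h3'] at h2
  have hRS : (c * (y ⬝ᵥ y) + S.BB τ y) + (c * (y ⬝ᵥ y) + S.BB (-τ) y) = 2 * S.RS c τ y := by
    simp only [NF.RS]
    linarith
  have hB2 : S.BB (-τ) y = 2 * S.RS c τ y - (c * (y ⬝ᵥ y) + S.BB τ y) - c * (y ⬝ᵥ y) := by
    linarith
  rw [hB2] at h2
  simp only [NF.hh]
  refine le_trans (le_of_eq ?_) (le_trans (add_le_add h1 h2) (le_of_eq ?_))
  · ring
  · ring

end Pool.Agent.Helper19.PS
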