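import Mathlib
import Pool.Agent.Helper82.PS.P8
import Pool.Agent.Helper19.PS.Defs

/-!
# Project PS, piece PS-9: the radial weights
-/

open MeasureTheory Set Metric Filter Module Matrix
open scoped NNReal Topology RealInnerProductSpace ENNReal Real

namespace Pool.Agent.Helper19.PS

open Pool.Agent.Helper20.VF

/-- the space of `(z, y)`. -/
private abbrev P9E (d : ℕ) : Type := WithLp 2 (ℝ × EuclideanSpace ℝ (Fin d))

private lemma ps9_norm {d : ℕ} (z : ℝ) (y : EuclideanSpace ℝ (Fin d)) :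
    ‖(WithLp.toLp 2 (z, y) : P9E d)‖ = √(z ^ 2 + ‖y‖ ^ 2) := by
  rw [WithLp.prod_norm_eq_of_L2]
  simp

private lemma ps9_gw {d : ℕ} (z : ℝ) (y : EuclideanSpace ℝ (Fin d)) :
    gw (WithLp.toLp 2 (z, y) : P9E d) = Real.exp (-z ^ 2 / 2) * gw y := by
  rw [gw, ps9_norm, Real.sq_sqrt (by positivity), gw, ← Real.exp_add]
  congr 1
  ring

private lemma ps9_finrank (d : ℕ) : finrank ℝ (P9E d) = d + 1 := by
  rw [LinearEquiv.finrank_eq (WithLp.linearEquiv 2 ℝ (ℝ × EuclideanSpace ℝ (Fin d))),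
    Module.finrank_prod, finrank_self, finrank_euclideanSpace_fin]
  ring

private lemma ps9_meas {d : ℕ} (F : ℝ → ℝ → EuclideanSpace ℝ (Fin d) → ℝ)
    (hFm : Measurable (fun p : (ℝ × ℝ) × EuclideanSpace ℝ (Fin d) => F p.1.1 p.1.2 p.2)) :
    Measurable (fun p : (ℝ × ℝ) × EuclideanSpace ℝ (Fin d) =>
      ENNReal.ofReal (F p.1.1 p.1.2 p.2 * (gw p.2 * Real.exp (-(p.1.1 ^ 2 + p.1.2 ^ 2) / 2)))) := by
  have hg : Measurable (fun y : EuclideanSpace ℝ (Fin d) => gw y) := continuous_gw.measurable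
  exact (hFm.mul ((hg.comp measurable_snd).mul (by fun_prop))).ennreal_ofReal

private lemma ps9_meas_tau {d : ℕ} (F : ℝ → ℝ → EuclideanSpace ℝ (Fin d) → ℝ)
    (hFm : Measurable (fun p : (ℝ × ℝ) × EuclideanSpace ℝ (Fin d) => F p.1.1 p.1.2 p.2)) (τ : ℝ) :
    Measurable (fun x : P9E d => F x.ofLp.1 τ x.ofLp.2) := by
  have h : Measurable (fun x : P9E d => ((x.ofLp.1, τ), x.ofLp.2)) := by
    have h0 : Measurable (WithLp.ofLp : P9E d → ℝ × EuclideanSpace ℝ (Fin d)) :=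
      WithLp.measurable_ofLp _ _
    exact ((measurable_fst.comp h0).prodMk measurable_const).prodMk (measurable_snd.comp h0)
  exact hFm.comp h

/-- iterated form of the integral with the `τ` integral outside. -/
private lemma ps9_swap {d : ℕ} (F : ℝ → ℝ → EuclideanSpace ℝ (Fin d) → ℝ)
    (hFm : Measurable (fun p : (ℝ × ℝ) × EuclideanSpace ℝ (Fin d) => F p.1.1 p.1.2 p.2)) :
    II d F = ∫⁻ τ : ℝ, ENNReal.ofReal (Real.exp (-τ ^ 2 / 2)) *
      ∫⁻ x : P9E d, ENNReal.ofReal (F x.ofLp.1 τ x.ofLp.2 * gw x) := by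
  have hm := ps9_meas F hFm
  have hm2 : Measurable (fun p : ℝ × ℝ => ∫⁻ y : EuclideanSpace ℝ (Fin d),
      ENNReal.ofReal (F p.1 p.2 y * (gw y * Real.exp (-(p.1 ^ 2 + p.2 ^ 2) / 2)))) :=
    hm.lintegral_prod_right'
  rw [II, show (volume : Measure (ℝ × ℝ)) = volume.prod volume from rfl,
    lintegral_prod_symm _ hm2.aemeasurable]
  refine lintegral_congr fun τ => ?_
  have h2 := WithLp.volume_preserving_toLp ℝ (EuclideanSpace ℝ (Fin d))
  have hg : Measurable (fun x : P9E d => gw x) := continuous_gw.measurable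
  have hm3 : Measurable (fun x : P9E d => ENNReal.ofReal (F x.ofLp.1 τ x.ofLp.2 * gw x)) :=
    ((ps9_meas_tau F hFm τ).mul hg).ennreal_ofReal
  have hm4 : Measurable (fun p : ℝ × EuclideanSpace ℝ (Fin d) =>
      ENNReal.ofReal (F p.1 τ p.2 * gw (WithLp.toLp 2 p : P9E d))) :=
    hm3.comp (WithLp.measurable_toLp _ _)
  rw [← h2.lintegral_comp hm3, show (volume : Measure (ℝ × EuclideanSpace ℝ (Fin d)))
    = volume.prod volume from rfl, lintegral_prod _ hm4.aemeasurable,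
    ← lintegral_const_mul _ hm4.lintegral_prod_right']
  refine lintegral_congr fun z => ?_
  have hm5 : Measurable (fun y : EuclideanSpace ℝ (Fin d) =>
      ENNReal.ofReal (F z τ y * gw (WithLp.toLp 2 (z, y) : P9E d))) :=
    hm4.comp measurable_prodMk_left
  rw [← lintegral_const_mul _ hm5]
  refine lintegral_congr fun y => ?_
  rw [← ENNReal.ofReal_mul (Real.exp_pos _).le, ps9_gw]
  congr 1
  rw [show -(z ^ 2 + τ ^ 2) / 2 = -z ^ 2 / 2 + -τ ^ 2 / 2 by ring, Real.exp_add]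
  ring

theorem II_rho {d : ℕ} (hd : 1 ≤ d) (q : ℕ) (F : ℝ → ℝ → EuclideanSpace ℝ (Fin d) → ℝ)
    (hFm : Measurable (fun p : (ℝ × ℝ) × EuclideanSpace ℝ (Fin d) => F p.1.1 p.1.2 p.2))
    (hF0 : ∀ z τ y, 0 ≤ F z τ y)
    (hF : ∀ z τ y, ∀ r s : ℝ, 0 < r → r ≤ s → r ^ q * F (s * z) τ (s • y) ≤ s ^ q * F (r * z) τ (r • y)) :
    II d (fun z τ y => √(z ^ 2 + ‖y‖ ^ 2) * F z τ y)
      ≤ ENNReal.ofReal (gm (d + 1 + q) / gm (d + q)) * II d F := by
  have hFm' : Measurable (fun p : (ℝ × ℝ) × EuclideanSpace ℝ (Fin d) =>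
      √(p.1.1 ^ 2 + ‖p.2‖ ^ 2) * F p.1.1 p.1.2 p.2) := by
    refine Measurable.mul ?_ hFm
    fun_prop
  rw [ps9_swap _ hFm', ps9_swap _ hFm, ← lintegral_const_mul]
  · refine lintegral_mono fun τ => ?_
    simp only []
    rw [mul_left_comm]
    refine mul_le_mul_right ?_ _
    have hnt : Nontrivial (P9E d) := by
      refine Module.nontrivial_of_finrank_pos (R := ℝ) ?_
      rw [ps9_finrank]
      omega
    have h := rho_E (E := P9E d) q (fun x => F x.ofLp.1 τ x.ofLp.2) (ps9_meas_tau F hFm τ)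
      (fun x => hF0 _ _ _) (fun x r s hr hrs => hF x.ofLp.1 τ x.ofLp.2 r s hr hrs)
    rw [ps9_finrank, Nat.add_sub_cancel] at h
    refine le_trans (le_of_eq ?_) h
    refine lintegral_congr fun x => ?_
    have := ps9_norm (d := d) x.ofLp.1 x.ofLp.2
    have e : (WithLp.toLp 2 (x.ofLp.1, x.ofLp.2) : P9E d) = x := rfl
    rw [e] at this
    rw [this]
  · refine Measurable.mul (by fun_prop) ?_
    have hg : Measurable (fun x : P9E d => gw x) := continuous_gw.measurable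
    have h0 : Measurable (WithLp.ofLp : P9E d → ℝ × EuclideanSpace ℝ (Fin d)) :=
      WithLp.measurable_ofLp _ _
    have h1 : Measurable (fun p : ℝ × P9E d => ((p.2.ofLp.1, p.1), p.2.ofLp.2)) :=
      ((measurable_fst.comp (h0.comp measurable_snd)).prodMk measurable_fst).prodMk
        (measurable_snd.comp (h0.comp measurable_snd))
    have h2 : Measurable (fun p : ℝ × P9E d =>
        ENNReal.ofReal (F p.2.ofLp.1 p.1 p.2.ofLp.2 * gw p.2)) :=
      ((hFm.comp h1).mul (hg.comp measurable_snd)).ennreal_ofReal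
    exact h2.lintegral_prod_right'

/-- coordinates of `(z, τ, y)`. -/
private noncomputable def ps9_map (d : ℕ) (q : (ℝ × ℝ) × EuclideanSpace ℝ (Fin d)) :
    EuclideanSpace ℝ (Fin 2 ⊕ Fin d) := WithLp.toLp 2 (Sum.elim ![q.1.1, q.1.2] q.2.ofLp)

private lemma ps9_map_mp (d : ℕ) : MeasurePreserving (ps9_map d) (volume.prod volume) volume := by
  have h1 : MeasurePreserving (MeasurableEquiv.finTwoArrow (α := ℝ)).symm
      (volume : Measure (ℝ × ℝ)) volume := (volume_preserving_finTwoArrow ℝ).symm _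
  have h2 : MeasurePreserving (WithLp.ofLp : (EuclideanSpace ℝ (Fin d)) → (Fin d → ℝ)) volume volume :=
    PiLp.volume_preserving_ofLp _
  have h3 := h1.prod h2
  have h4 : MeasurePreserving (MeasurableEquiv.sumPiEquivProdPi (fun _ : Fin 2 ⊕ Fin d => ℝ)).symm
      (volume.prod volume) volume := volume_measurePreserving_sumPiEquivProdPi_symm _
  have h5 : MeasurePreserving (WithLp.toLp 2 : ((Fin 2 ⊕ Fin d) → ℝ) →
      EuclideanSpace ℝ (Fin 2 ⊕ Fin d)) volume volume := PiLp.volume_preserving_toLp _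
  have h7 := h5.comp (h4.comp h3)
  have e : ps9_map d = ((WithLp.toLp 2) ∘
      (MeasurableEquiv.sumPiEquivProdPi (fun _ : Fin 2 ⊕ Fin d => ℝ)).symm ∘
        Prod.map (MeasurableEquiv.finTwoArrow (α := ℝ)).symm
          (WithLp.ofLp : (EuclideanSpace ℝ (Fin d)) → (Fin d → ℝ))) := by
    funext q
    simp only [Function.comp_apply, ps9_map]
    congr 1
  rw [e]
  exact h7

private lemma ps9_map_norm {d : ℕ} (q : (ℝ × ℝ) × EuclideanSpace ℝ (Fin d)) :
    ‖ps9_map d q‖ ^ 2 = q.1.1 ^ 2 + q.1.2 ^ 2 + ‖q.2‖ ^ 2 := by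
  rw [ps9_map, EuclideanSpace.norm_sq_eq, Fintype.sum_sum_type, Fin.sum_univ_two,
    EuclideanSpace.norm_sq_eq]
  simp

/-- the weight `|e|` on all of `ℝ^(d+2)`. -/
theorem II_weight {d : ℕ} (q : ℕ) (F : ℝ → ℝ → EuclideanSpace ℝ (Fin d) → ℝ)
    (hFm : Measurable (fun p : (ℝ × ℝ) × EuclideanSpace ℝ (Fin d) => F p.1.1 p.1.2 p.2))
    (hF0 : ∀ z τ y, 0 ≤ F z τ y)
    (hF : ∀ z τ y, ∀ r : ℝ, 0 < r → F (r * z) (r * τ) (r • y) = r ^ q * F z τ y) :
    II d (fun z τ y => √(z ^ 2 + τ ^ 2 + ‖y‖ ^ 2) * F z τ y)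
      ≤ ENNReal.ofReal (gm (d + 2 + q) / gm (d + 1 + q)) * II d F := by
  have hsw : ∀ G : ℝ → ℝ → EuclideanSpace ℝ (Fin d) → ℝ,
      Measurable (fun p : (ℝ × ℝ) × EuclideanSpace ℝ (Fin d) => G p.1.1 p.1.2 p.2) →
      II d G = ∫⁻ x : EuclideanSpace ℝ (Fin 2 ⊕ Fin d),
        ENNReal.ofReal (G (x.ofLp (Sum.inl 0)) (x.ofLp (Sum.inl 1))
          (WithLp.toLp 2 fun j => x.ofLp (Sum.inr j)) * gw x) := by
    intro G hG
    have hx : Measurable (fun x : EuclideanSpace ℝ (Fin 2 ⊕ Fin d) =>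
        ((x.ofLp (Sum.inl 0), x.ofLp (Sum.inl 1)),
          (WithLp.toLp 2 fun j => x.ofLp (Sum.inr j) : EuclideanSpace ℝ (Fin d)))) := by
      have h0 : Measurable (WithLp.ofLp : EuclideanSpace ℝ (Fin 2 ⊕ Fin d) → _) :=
        WithLp.measurable_ofLp _ _
      have h1 : ∀ i, Measurable (fun x : EuclideanSpace ℝ (Fin 2 ⊕ Fin d) => x.ofLp i) :=
        fun i => (measurable_pi_apply i).comp h0
      refine ((h1 _).prodMk (h1 _)).prodMk ?_
      exact (WithLp.measurable_toLp _ _).comp (measurable_pi_lambda _ fun j => h1 _)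
    have hg : Measurable (fun x : EuclideanSpace ℝ (Fin 2 ⊕ Fin d) => gw x) :=
      continuous_gw.measurable
    have hm : Measurable (fun x : EuclideanSpace ℝ (Fin 2 ⊕ Fin d) =>
        ENNReal.ofReal (G (x.ofLp (Sum.inl 0)) (x.ofLp (Sum.inl 1))
          (WithLp.toLp 2 fun j => x.ofLp (Sum.inr j)) * gw x)) :=
      ((hG.comp hx).mul hg).ennreal_ofReal
    have hm2 : Measurable (fun a : (ℝ × ℝ) × EuclideanSpace ℝ (Fin d) =>
        ENNReal.ofReal (G ((ps9_map d a).ofLp (Sum.inl 0)) ((ps9_map d a).ofLp (Sum.inl 1))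
          (WithLp.toLp 2 fun j => (ps9_map d a).ofLp (Sum.inr j)) * gw (ps9_map d a))) :=
      hm.comp (ps9_map_mp d).measurable
    rw [← (ps9_map_mp d).lintegral_comp hm, lintegral_prod _ hm2.aemeasurable, II]
    refine lintegral_congr fun p => lintegral_congr fun y => ?_
    have e : gw (ps9_map d (p, y)) = gw y * Real.exp (-(p.1 ^ 2 + p.2 ^ 2) / 2) := by
      rw [gw, ps9_map_norm, gw, ← Real.exp_add]
      congr 1
      ring
    simp only [e]
    rfl
  have hFm' : Measurable (fun p : (ℝ × ℝ) × EuclideanSpace ℝ (Fin d) =>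
      √(p.1.1 ^ 2 + p.1.2 ^ 2 + ‖p.2‖ ^ 2) * F p.1.1 p.1.2 p.2) := by
    refine Measurable.mul ?_ hFm
    fun_prop
  rw [hsw _ hFm', hsw _ hFm]
  have hfr : finrank ℝ (EuclideanSpace ℝ (Fin 2 ⊕ Fin d)) = d + 2 := by
    rw [finrank_euclideanSpace]
    simp
    ring
  have hnt : Nontrivial (EuclideanSpace ℝ (Fin 2 ⊕ Fin d)) := by
    refine Module.nontrivial_of_finrank_pos (R := ℝ) ?_
    rw [hfr]
    omega
  have hx : Measurable (fun x : EuclideanSpace ℝ (Fin 2 ⊕ Fin d) =>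
      ((x.ofLp (Sum.inl 0), x.ofLp (Sum.inl 1)),
        (WithLp.toLp 2 fun j => x.ofLp (Sum.inr j) : EuclideanSpace ℝ (Fin d)))) := by
    have h0 : Measurable (WithLp.ofLp : EuclideanSpace ℝ (Fin 2 ⊕ Fin d) → _) :=
      WithLp.measurable_ofLp _ _
    have h1 : ∀ i, Measurable (fun x : EuclideanSpace ℝ (Fin 2 ⊕ Fin d) => x.ofLp i) :=
      fun i => (measurable_pi_apply i).comp h0
    refine ((h1 _).prodMk (h1 _)).prodMk ?_
    exact (WithLp.measurable_toLp _ _).comp (measurable_pi_lambda _ fun j => h1 _)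
  have h := rho_E (E := EuclideanSpace ℝ (Fin 2 ⊕ Fin d)) q
    (fun x => F (x.ofLp (Sum.inl 0)) (x.ofLp (Sum.inl 1))
      (WithLp.toLp 2 fun j => x.ofLp (Sum.inr j))) (hFm.comp hx) (fun x => hF0 _ _ _) ?_
  · rw [hfr, show d + 2 - 1 = d + 1 by omega] at h
    refine le_trans (le_of_eq ?_) h
    refine lintegral_congr fun x => ?_
    congr 3
    rw [EuclideanSpace.norm_eq x, Fintype.sum_sum_type, Fin.sum_univ_two,
      EuclideanSpace.norm_sq_eq]
    simp
  · intro x r s hr hrs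
    have h1 := hF (x.ofLp (Sum.inl 0)) (x.ofLp (Sum.inl 1))
      (WithLp.toLp 2 fun j => x.ofLp (Sum.inr j)) s (hr.trans_le hrs)
    have h2 := hF (x.ofLp (Sum.inl 0)) (x.ofLp (Sum.inl 1))
      (WithLp.toLp 2 fun j => x.ofLp (Sum.inr j)) r hr
    have e : ∀ t : ℝ, F ((t • x).ofLp (Sum.inl 0)) ((t • x).ofLp (Sum.inl 1))
        (WithLp.toLp 2 fun j => (t • x).ofLp (Sum.inr j))
        = F (t * x.ofLp (Sum.inl 0)) (t * x.ofLp (Sum.inl 1))
          (t • (WithLp.toLp 2 fun j => x.ofLp (Sum.inr j))) := fun t => rfl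
    rw [e, e, h1, h2]
    exact le_of_eq (by ring)

end Pool.Agent.Helper19.PS
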