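import Pool.Agent.Helper30.PS.P2
import Pool.Agent.Helper19.PS.P6
import Pool.Agent.Helper19.PS.P9

/-!
# Project PS, piece PS-11: Gaussian moments
-/

open MeasureTheory Set Metric Filter Module Matrix
open scoped NNReal Topology RealInnerProductSpace ENNReal Real

namespace Pool.Agent.Helper19.PS

open Pool.Agent.Helper20.VF

private lemma ps11_gauss_eq (k : ℕ) : Integrable (fun z : ℝ => |z| ^ k * Real.exp (-z ^ 2 / 2)) := by
  have h := (integrable_pow_gauss k).abs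
  refine h.congr (Eventually.of_forall fun t => ?_)
  simp only [abs_mul, abs_pow, Real.abs_exp]

private lemma ps11_int0 : ∫ t : ℝ, Real.exp (-t ^ 2 / 2) = (2 * π) ^ ((1 : ℝ) / 2) := by
  have e2 := integral_gauss (E := ℝ)
  simp only [finrank_self, Nat.cast_one, Real.norm_eq_abs, sq_abs] at e2
  exact e2

private lemma ps11_int2 : ∫ t : ℝ, t ^ 2 * Real.exp (-t ^ 2 / 2) = (2 * π) ^ ((1 : ℝ) / 2) := by
  have e1 := integral_abs_pow_gauss 2
  have e0 := integral_abs_pow_gauss 0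
  simp only [sq_abs, pow_zero, one_mul] at e1 e0
  rw [ps11_int0] at e0
  rw [e1, show (2 : ℕ) = 0 + 2 by rfl, gm_succ_succ, e0]
  push_cast
  ring

/-- the double integral over `(z, τ)` of a product. -/
private lemma ps11_outer (k : ℕ) (A B : ℝ) (hA : 0 ≤ A) (hB : 0 ≤ B) :
    ∫⁻ p : ℝ × ℝ, ENNReal.ofReal (|p.1| ^ k * Real.exp (-(p.1 ^ 2 + p.2 ^ 2) / 2) * (A + B * p.2 ^ 2))
      = ENNReal.ofReal (2 * gm k * ((A + B) * (2 * π) ^ ((1 : ℝ) / 2))) := by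
  have i1 : Integrable (fun z : ℝ => |z| ^ k * Real.exp (-z ^ 2 / 2)) := ps11_gauss_eq k
  have i2 : Integrable (fun τ : ℝ => (A + B * τ ^ 2) * Real.exp (-τ ^ 2 / 2)) := by
    have h0 := (integrable_pow_gauss 0).const_mul A
    have h2 := (integrable_pow_gauss 2).const_mul B
    refine (h0.add h2).congr (Eventually.of_forall fun t => ?_)
    simp only [Pi.add_apply, pow_zero, one_mul]
    ring
  have i3 := i1.mul_prod i2
  have e : ∀ p : ℝ × ℝ, |p.1| ^ k * Real.exp (-(p.1 ^ 2 + p.2 ^ 2) / 2) * (A + B * p.2 ^ 2)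
      = (|p.1| ^ k * Real.exp (-p.1 ^ 2 / 2)) * ((A + B * p.2 ^ 2) * Real.exp (-p.2 ^ 2 / 2)) := by
    intro p
    rw [show -(p.1 ^ 2 + p.2 ^ 2) / 2 = -p.1 ^ 2 / 2 + -p.2 ^ 2 / 2 by ring, Real.exp_add]
    ring
  simp_rw [e]
  rw [show (volume : Measure (ℝ × ℝ)) = volume.prod volume from rfl,
    ← ofReal_integral_eq_lintegral_ofReal i3 (Eventually.of_forall fun p => by positivity)]
  congr 1
  rw [integral_prod_mul (fun z : ℝ => |z| ^ k * Real.exp (-z ^ 2 / 2))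
      (fun τ : ℝ => (A + B * τ ^ 2) * Real.exp (-τ ^ 2 / 2)), integral_abs_pow_gauss]
  congr 1
  have h0 : Integrable (fun t : ℝ => A * Real.exp (-t ^ 2 / 2)) := by
    have := (integrable_pow_gauss 0).const_mul A
    simpa using this
  have h2 : Integrable (fun t : ℝ => B * (t ^ 2 * Real.exp (-t ^ 2 / 2))) :=
    (integrable_pow_gauss 2).const_mul B
  have e2 : ∀ t : ℝ, (A + B * t ^ 2) * Real.exp (-t ^ 2 / 2)
      = A * Real.exp (-t ^ 2 / 2) + B * (t ^ 2 * Real.exp (-t ^ 2 / 2)) := fun t => by ring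
  simp_rw [e2]
  rw [integral_add h0 h2, integral_const_mul, integral_const_mul, ps11_int0, ps11_int2]
  ring

private lemma ps11_pow (d : ℕ) : (2 * π) ^ ((1 : ℝ) / 2) * (2 * π) ^ ((d : ℝ) / 2)
    = (2 * π) ^ (((d : ℝ) + 1) / 2) := by
  rw [← Real.rpow_add (by positivity)]
  congr 1
  ring

/-- separation of the inner integral. -/
private lemma ps11_II (d k : ℕ) (A B : ℝ) (hA : 0 ≤ A) (hB : 0 ≤ B)
    (F : ℝ → EuclideanSpace ℝ (Fin d) → ℝ) (hF0 : ∀ τ y, 0 ≤ F τ y)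
    (hFi : ∀ τ, Integrable (fun y => F τ y * gw y))
    (hF : ∀ τ, ∫ y, F τ y * gw y = (A + B * τ ^ 2) * (2 * π) ^ ((d : ℝ) / 2)) :
    II d (fun z τ y => |z| ^ k * F τ y)
      = ENNReal.ofReal (2 * gm k * (2 * π) ^ (((d : ℝ) + 1) / 2) * (A + B)) := by
  have e1 : ∀ p : ℝ × ℝ, ∫⁻ y : EuclideanSpace ℝ (Fin d),
      ENNReal.ofReal ((|p.1| ^ k * F p.2 y) * (gw y * Real.exp (-(p.1 ^ 2 + p.2 ^ 2) / 2)))
      = ENNReal.ofReal (|p.1| ^ k * Real.exp (-(p.1 ^ 2 + p.2 ^ 2) / 2) *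
        (A * (2 * π) ^ ((d : ℝ) / 2) + (B * (2 * π) ^ ((d : ℝ) / 2)) * p.2 ^ 2)) := by
    intro p
    have e2 : ∀ y : EuclideanSpace ℝ (Fin d),
        (|p.1| ^ k * F p.2 y) * (gw y * Real.exp (-(p.1 ^ 2 + p.2 ^ 2) / 2))
        = (|p.1| ^ k * Real.exp (-(p.1 ^ 2 + p.2 ^ 2) / 2)) * (F p.2 y * gw y) := fun y => by ring
    simp_rw [e2]
    rw [← ofReal_integral_eq_lintegral_ofReal ((hFi p.2).const_mul _)
      (Eventually.of_forall fun y => by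
        have := hF0 p.2 y
        have := (gw_pos y).le
        positivity), integral_const_mul, hF]
    congr 1
    ring
  rw [II]
  simp_rw [e1]
  rw [ps11_outer k _ _ (by positivity) (by positivity), ← ps11_pow]
  congr 1
  ring

theorem II_abs_pow (d k : ℕ) :
    II d (fun z _ _ => |z| ^ k) = ENNReal.ofReal (2 * gm k * (2 * π) ^ (((d : ℝ) + 1) / 2)) := by
  have h := ps11_II d k 1 0 zero_le_one le_rfl (fun _ _ => 1) (fun _ _ => zero_le_one)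
    (fun _ => ?_) (fun _ => ?_)
  · simpa using h
  · have h1 : ∫ x : EuclideanSpace ℝ (Fin d), gw x = (2 * π) ^ ((d : ℝ) / 2) := by
      have := integral_gauss (E := EuclideanSpace ℝ (Fin d))
      rw [finrank_euclideanSpace_fin] at this
      exact this
    simp only [one_mul]
    by_contra hcon
    rw [integral_undef hcon] at h1
    have : 0 < (2 * π) ^ ((d : ℝ) / 2) := by positivity
    linarith
  · have := integral_gauss (E := EuclideanSpace ℝ (Fin d))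
    rw [finrank_euclideanSpace_fin] at this
    simp only [one_mul, zero_mul, add_zero]
    exact this

private lemma ps11_dot {d : ℕ} (u : Fin d → ℝ) (y : EuclideanSpace ℝ (Fin d)) :
    u ⬝ᵥ y.ofLp = ⟪WithLp.toLp 2 u, y⟫ := by
  simp [PiLp.inner_apply, dotProduct, mul_comm]

private lemma ps11_norm {d : ℕ} (u : Fin d → ℝ) :
    ‖(WithLp.toLp 2 u : EuclideanSpace ℝ (Fin d))‖ ^ 2 = u ⬝ᵥ u := by
  rw [EuclideanSpace.norm_sq_eq]
  simp [dotProduct, sq]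

private lemma ps11_dot_sq {d : ℕ} [NeZero d] (u : Fin d → ℝ) :
    Integrable (fun y : EuclideanSpace ℝ (Fin d) => (u ⬝ᵥ y.ofLp) ^ 2 * gw y) ∧
    ∫ y : EuclideanSpace ℝ (Fin d), (u ⬝ᵥ y.ofLp) ^ 2 * gw y = (u ⬝ᵥ u) * (2 * π) ^ ((d : ℝ) / 2) := by
  have : Nontrivial (EuclideanSpace ℝ (Fin d)) := by
    refine Module.nontrivial_of_finrank_pos (R := ℝ) ?_
    rw [finrank_euclideanSpace_fin]
    exact Nat.pos_of_ne_zero (NeZero.ne d)
  have h := integral_inner_sq (E := EuclideanSpace ℝ (Fin d)) (WithLp.toLp 2 u)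
  rw [Zg_eq, finrank_euclideanSpace_fin, ps11_norm] at h
  have hi := ((Hom.inner (WithLp.toLp 2 u : EuclideanSpace ℝ (Fin d))).mul
    (Hom.inner (WithLp.toLp 2 u : EuclideanSpace ℝ (Fin d)))).integrable
  constructor
  · refine hi.congr (Eventually.of_forall fun y => ?_)
    simp only [ps11_dot]
    ring
  · simp_rw [ps11_dot]
    exact h

private lemma ps11_quad {d : ℕ} [NeZero d] {ι : Type*} [Fintype ι] (u : ι → Fin d → ℝ) :
    Integrable (fun y : EuclideanSpace ℝ (Fin d) => (∑ i, (u i ⬝ᵥ y.ofLp) ^ 2) * gw y) ∧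
    ∫ y : EuclideanSpace ℝ (Fin d), (∑ i, (u i ⬝ᵥ y.ofLp) ^ 2) * gw y
      = (∑ i, u i ⬝ᵥ u i) * (2 * π) ^ ((d : ℝ) / 2) := by
  have e : ∀ y : EuclideanSpace ℝ (Fin d), (∑ i, (u i ⬝ᵥ y.ofLp) ^ 2) * gw y
      = ∑ i, (u i ⬝ᵥ y.ofLp) ^ 2 * gw y := fun y => Finset.sum_mul _ _ _
  constructor
  · simp_rw [e]
    exact integrable_finsetSum _ fun i _ => (ps11_dot_sq (u i)).1
  · simp_rw [e]
    rw [integral_finsetSum _ fun i _ => (ps11_dot_sq (u i)).1, Finset.sum_mul]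
    exact Finset.sum_congr rfl fun i _ => (ps11_dot_sq (u i)).2

private lemma ps11_trace {d : ℕ} (C : Matrix (Fin d) (Fin d) ℝ) :
    trace (Cᵀ * C) = ∑ j, C j ⬝ᵥ C j := by
  simp only [trace, diag, Matrix.mul_apply, transpose_apply, dotProduct]
  exact Finset.sum_comm

private lemma ps11_nonneg {d : ℕ} (u : Fin d → ℝ) : 0 ≤ u ⬝ᵥ u :=
  Finset.sum_nonneg fun _ _ => mul_self_nonneg _

private lemma ps11_final {d : ℕ} [NeZero d] {ι κ μ : Type*} [Fintype ι] [Fintype κ] [Fintype μ]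
    (u : ι → Fin d → ℝ) (v : κ → Fin d → ℝ) (w : μ → Fin d → ℝ) (c B : ℝ) :
    Integrable (fun y : EuclideanSpace ℝ (Fin d) => (c * (∑ i, (u i ⬝ᵥ y.ofLp) ^ 2)
      + (∑ i, (v i ⬝ᵥ y.ofLp) ^ 2) + (∑ i, (w i ⬝ᵥ y.ofLp) ^ 2) + B) * gw y) ∧
    ∫ y : EuclideanSpace ℝ (Fin d), (c * (∑ i, (u i ⬝ᵥ y.ofLp) ^ 2)
      + (∑ i, (v i ⬝ᵥ y.ofLp) ^ 2) + (∑ i, (w i ⬝ᵥ y.ofLp) ^ 2) + B) * gw y
      = (c * (∑ i, u i ⬝ᵥ u i) + (∑ i, v i ⬝ᵥ v i) + (∑ i, w i ⬝ᵥ w i) + B)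
        * (2 * π) ^ ((d : ℝ) / 2) := by
  have h1 : ∫ x : EuclideanSpace ℝ (Fin d), gw x = (2 * π) ^ ((d : ℝ) / 2) := by
    have := integral_gauss (E := EuclideanSpace ℝ (Fin d))
    rw [finrank_euclideanSpace_fin] at this
    exact this
  have i0 : Integrable (fun x : EuclideanSpace ℝ (Fin d) => gw x) := by
    by_contra hcon
    rw [integral_undef hcon] at h1
    have : 0 < (2 * π) ^ ((d : ℝ) / 2) := by positivity
    linarith
  have e : ∀ y : EuclideanSpace ℝ (Fin d), (c * (∑ i, (u i ⬝ᵥ y.ofLp) ^ 2)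
      + (∑ i, (v i ⬝ᵥ y.ofLp) ^ 2) + (∑ i, (w i ⬝ᵥ y.ofLp) ^ 2) + B) * gw y
      = c * ((∑ i, (u i ⬝ᵥ y.ofLp) ^ 2) * gw y) + (∑ i, (v i ⬝ᵥ y.ofLp) ^ 2) * gw y
        + (∑ i, (w i ⬝ᵥ y.ofLp) ^ 2) * gw y + B * gw y := fun y => by ring
  have a1 := ((ps11_quad u).1.const_mul c)
  have a2 := (ps11_quad v).1
  have a3 := (ps11_quad w).1
  have a4 := i0.const_mul B
  simp_rw [e]
  constructor
  · exact ((a1.add a2).add a3).add a4
  · have b2 : Integrable (fun y : EuclideanSpace ℝ (Fin d) =>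
        c * ((∑ i, (u i ⬝ᵥ y.ofLp) ^ 2) * gw y) + (∑ i, (v i ⬝ᵥ y.ofLp) ^ 2) * gw y) := a1.add a2
    have b3 : Integrable (fun y : EuclideanSpace ℝ (Fin d) =>
        c * ((∑ i, (u i ⬝ᵥ y.ofLp) ^ 2) * gw y) + (∑ i, (v i ⬝ᵥ y.ofLp) ^ 2) * gw y
        + (∑ i, (w i ⬝ᵥ y.ofLp) ^ 2) * gw y) := b2.add a3
    rw [integral_add b3 a4, integral_add b2 a3, integral_add a1 a2, integral_const_mul, integral_const_mul, (ps11_quad u).2, (ps11_quad v).2,
      (ps11_quad w).2, h1]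
    ring

theorem II_RS {d : ℕ} (S : NF d) (k : ℕ) (c : ℝ) (hc0 : 0 ≤ c) :
    II d (fun z τ y => |z| ^ k * S.RS c τ y.ofLp)
      = ENNReal.ofReal (2 * gm k * (2 * π) ^ (((d : ℝ) + 1) / 2) * (c * d + 2 * S.be)) := by
  have hbe := NF.be_eq S
  have hT : ∀ i, 0 ≤ trace ((S.C i)ᵀ * S.C i) := fun i => by
    rw [ps11_trace]
    exact Finset.sum_nonneg fun j _ => ps11_nonneg _
  have hb : ∀ i, 0 ≤ S.b i ⬝ᵥ S.b i := fun i => ps11_nonneg _
  set B : ℝ := ∑ i, S.b i ⬝ᵥ S.b i with hB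
  set A : ℝ := c * d + ∑ i, S.b i ⬝ᵥ S.b i + ∑ i, trace ((S.C i)ᵀ * S.C i) with hA
  have hAB : A + B = c * d + 2 * S.be := by
    rw [← hbe, hA, hB, Finset.sum_add_distrib, ← Finset.mul_sum]
    ring
  have hA0 : 0 ≤ A := by
    have h1 := Finset.sum_nonneg fun i (_ : i ∈ Finset.univ) => hb i
    have h2 := Finset.sum_nonneg fun i (_ : i ∈ Finset.univ) => hT i
    positivity
  have hB0 : 0 ≤ B := Finset.sum_nonneg fun i _ => hb i
  rw [← hAB]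
  have hRS : ∀ τ (y : EuclideanSpace ℝ (Fin d)), S.RS c τ y.ofLp
      = c * (∑ j, ((Pi.single j 1 : Fin d → ℝ) ⬝ᵥ y.ofLp) ^ 2) + (∑ i, (S.b i ⬝ᵥ y.ofLp) ^ 2)
        + (∑ p : Fin d × Fin d, (S.C p.1 p.2 ⬝ᵥ y.ofLp) ^ 2) + B * τ ^ 2 := by
    intro τ y
    rw [NF.RS, Finset.sum_add_distrib, Finset.sum_add_distrib, Fintype.sum_prod_type, hB,
      Finset.sum_mul]
    have e1 : y.ofLp ⬝ᵥ y.ofLp = ∑ j, ((Pi.single j 1 : Fin d → ℝ) ⬝ᵥ y.ofLp) ^ 2 := by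
      simp [dotProduct, sq, Pi.single_apply]
    have e2 : ∀ i, (S.C i *ᵥ y.ofLp) ⬝ᵥ (S.C i *ᵥ y.ofLp) = ∑ j, (S.C i j ⬝ᵥ y.ofLp) ^ 2 := by
      intro i
      simp only [dotProduct, mulVec, sq]
    have e3 : ∀ i, τ ^ 2 * (S.b i ⬝ᵥ S.b i) = S.b i ⬝ᵥ S.b i * τ ^ 2 := fun i => mul_comm _ _
    simp only [e1, e2, e3]
    ring
  refine ps11_II d k A B hA0 hB0 (fun τ y => S.RS c τ y.ofLp) (fun τ y => ?_) (fun τ => ?_)
    (fun τ => ?_)
  · rw [hRS]; positivity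
  · rcases d with _ | d
    · simp [hRS, hB]
    · simp_rw [hRS]
      exact (ps11_final _ _ _ _ _).1
  · rcases d with _ | d
    · simp [hRS, hB, hA]
    · simp_rw [hRS]
      rw [(ps11_final _ _ _ _ _).2, hA, hB, Fintype.sum_prod_type]
      simp only [ps11_trace]
      congr 2
      simp [dotProduct, Pi.single_apply]

end Pool.Agent.Helper19.PS
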