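import Pool.Agent.Helper83.PS.P12
import Pool.Agent.Helper6.PS.P13

/-!
# Project PS, piece PS-14: the integral of the second order term
-/

open MeasureTheory Set Metric Filter Module Matrix
open scoped NNReal Topology RealInnerProductSpace ENNReal Real

namespace Pool.Agent.Helper19.PS

open Pool.Agent.Helper20.VF (gm gw)

/-- Tonelli: `(z, τ), y` to `τ, y, z`. -/
lemma ps14_swap {d : ℕ} (G : ℝ → ℝ → EuclideanSpace ℝ (Fin d) → ℝ≥0∞)
    (hG : Measurable (fun q : (ℝ × ℝ) × EuclideanSpace ℝ (Fin d) => G q.1.1 q.1.2 q.2)) :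
    ∫⁻ p : ℝ × ℝ, ∫⁻ y : EuclideanSpace ℝ (Fin d), G p.1 p.2 y
      = ∫⁻ τ : ℝ, ∫⁻ y : EuclideanSpace ℝ (Fin d), ∫⁻ z : ℝ, G z τ y := by
  have h1 : Measurable (fun p : ℝ × ℝ => ∫⁻ y : EuclideanSpace ℝ (Fin d), G p.1 p.2 y) :=
    hG.lintegral_prod_right'
  rw [Measure.volume_eq_prod, lintegral_prod_symm' _ h1]
  refine lintegral_congr fun τ => ?_
  refine lintegral_lintegral_swap ?_
  refine Measurable.aemeasurable ?_
  exact hG.comp (((measurable_fst).prodMk measurable_const).prodMk measurable_snd)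

lemma ps14_A_nonneg (m : ℕ) (hm : 3 ≤ m) : 0 ≤ ((m : ℝ) * (m - 1) / 2) / (2 * m) ^ m := by
  have : (3 : ℝ) ≤ m := by exact_mod_cast hm
  have h1 : (0 : ℝ) ≤ m - 1 := by linarith
  positivity

/-- the pointwise bound of the second order term. -/
lemma ps14_pt (m : ℕ) (hm : 3 ≤ m) (c e1 e3 be z τ Y : ℝ) (hc : 0 < c) (he3 : 0 ≤ e3)
    (hbe : 0 ≤ be) (hz : z ≠ 0) (hY : 0 < Y) :
    h3 (2 * m) m c e1 e3 be z τ Y ≤ ((m : ℝ) * (m - 1) / 2) / (2 * m) ^ m *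
      (4 * be * τ ^ 2 * (2 * m + 1) ^ (m - 2)
          * (|z| * (z ^ 2 + e3 / (2 * m + 1) * (Y + τ ^ 2)) ^ (m - 2))
        + e1 ^ 2 * (Y + τ ^ 2) ^ 2 * (2 * m + 1) ^ (m - 2)
          * (|z|⁻¹ * ((z ^ 2 + e3 / (2 * m + 1) * (Y + τ ^ 2)) ^ (m - 2)
            - (e3 / (2 * m + 1) * (Y + τ ^ 2)) ^ (m - 2)))
        + e1 ^ 2 * e3 ^ (m - 2) * (√c)⁻¹ * ((Y + τ ^ 2) ^ m * (√Y)⁻¹)) := by
  have hA := ps14_A_nonneg m hm
  have hm0 : (0 : ℝ) < 2 * m + 1 := by positivity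
  set A : ℝ := ((m : ℝ) * (m - 1) / 2) / (2 * m) ^ m with hAdef
  set W : ℝ := Y + τ ^ 2 with hW
  have hW0 : 0 < W := by positivity
  set w : ℝ := e3 / (2 * m + 1) * W with hw
  have hw0 : 0 ≤ w := by positivity
  have hexp : ((2 * m : ℕ) : ℝ) + 1 = 2 * m + 1 := by push_cast; ring
  have hB : (((2 * m : ℕ) : ℝ) + 1) * z ^ 2 + e3 * W = (2 * m + 1) * (z ^ 2 + w) := by
    rw [hexp, hw]; field_simp
  have hB2 : e3 * W = (2 * m + 1) * w := by rw [hw]; field_simp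
  set R : ℝ := (√(z ^ 2 + c * Y))⁻¹ with hR
  have hz2 : 0 < z ^ 2 := by positivity
  have hR1 : R ≤ |z|⁻¹ := by
    rw [hR]
    have : |z| ≤ √(z ^ 2 + c * Y) := by
      rw [← Real.sqrt_sq_eq_abs]
      exact Real.sqrt_le_sqrt (by nlinarith [mul_pos hc hY])
    exact inv_anti₀ (abs_pos.2 hz) this
  have hR2 : R ≤ (√c)⁻¹ * (√Y)⁻¹ := by
    rw [hR, ← mul_inv, ← Real.sqrt_mul hc.le]
    exact inv_anti₀ (Real.sqrt_pos.2 (mul_pos hc hY)) (Real.sqrt_le_sqrt (by nlinarith))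
  have hR0 : 0 ≤ R := by rw [hR]; positivity
  have hpm : W ^ m = W ^ 2 * W ^ (m - 2) := by rw [← pow_add]; congr 1; omega
  have hmono : w ^ (m - 2) ≤ (z ^ 2 + w) ^ (m - 2) := pow_le_pow_left₀ hw0 (by linarith) _
  have hkey : h3 (2 * m) m c e1 e3 be z τ Y
      = A * (R * (4 * be * τ ^ 2 * z ^ 2) * ((2 * m + 1) ^ (m - 2) * (z ^ 2 + w) ^ (m - 2))
        + R * (e1 ^ 2 * W ^ 2) * ((2 * m + 1) ^ (m - 2) * ((z ^ 2 + w) ^ (m - 2) - w ^ (m - 2)))
        + R * (e1 ^ 2 * W ^ 2 * (e3 ^ (m - 2) * W ^ (m - 2)))) := by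
    unfold h3
    have hA2 : ((m : ℝ) * (m - 1) / 2) / ((2 * m : ℕ) : ℝ) ^ m = A := by
      rw [hAdef]; push_cast; ring
    have hq : e3 ^ (m - 2) * W ^ (m - 2) = (2 * m + 1) ^ (m - 2) * w ^ (m - 2) := by
      rw [← mul_pow, hB2, mul_pow]
    rw [← hW, ← hR, hB, hA2, hq, mul_pow]
    clear_value A R w W
    ring
  rw [hkey]
  refine mul_le_mul_of_nonneg_left ?_ hA
  refine add_le_add (add_le_add ?_ ?_) ?_
  · have h1 : R * z ^ 2 ≤ |z| := by
      calc R * z ^ 2 ≤ |z|⁻¹ * z ^ 2 := mul_le_mul_of_nonneg_right hR1 hz2.le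
        _ = |z| := by rw [← sq_abs]; field_simp
    have h2 : 0 ≤ 4 * be * τ ^ 2 * ((2 * m + 1) ^ (m - 2) * (z ^ 2 + w) ^ (m - 2)) := by positivity
    calc R * (4 * be * τ ^ 2 * z ^ 2) * ((2 * m + 1) ^ (m - 2) * (z ^ 2 + w) ^ (m - 2))
        = (R * z ^ 2) * (4 * be * τ ^ 2 * ((2 * m + 1) ^ (m - 2) * (z ^ 2 + w) ^ (m - 2))) := by ring
      _ ≤ |z| * (4 * be * τ ^ 2 * ((2 * m + 1) ^ (m - 2) * (z ^ 2 + w) ^ (m - 2))) :=
          mul_le_mul_of_nonneg_right h1 h2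
      _ = _ := by ring
  · have h2 : 0 ≤ (e1 ^ 2 * W ^ 2) * ((2 * m + 1) ^ (m - 2) * ((z ^ 2 + w) ^ (m - 2) - w ^ (m - 2))) := by
      have := sub_nonneg.2 hmono
      positivity
    calc R * (e1 ^ 2 * W ^ 2) * ((2 * m + 1) ^ (m - 2) * ((z ^ 2 + w) ^ (m - 2) - w ^ (m - 2)))
        = R * ((e1 ^ 2 * W ^ 2) * ((2 * m + 1) ^ (m - 2) * ((z ^ 2 + w) ^ (m - 2) - w ^ (m - 2)))) := by
          ring
      _ ≤ |z|⁻¹ * ((e1 ^ 2 * W ^ 2) * ((2 * m + 1) ^ (m - 2) * ((z ^ 2 + w) ^ (m - 2) - w ^ (m - 2)))) :=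
          mul_le_mul_of_nonneg_right hR1 h2
      _ = _ := by ring
  · rw [hpm]
    have h2 : 0 ≤ e1 ^ 2 * W ^ 2 * (e3 ^ (m - 2) * W ^ (m - 2)) := by positivity
    calc R * (e1 ^ 2 * W ^ 2 * (e3 ^ (m - 2) * W ^ (m - 2)))
        ≤ ((√c)⁻¹ * (√Y)⁻¹) * (e1 ^ 2 * W ^ 2 * (e3 ^ (m - 2) * W ^ (m - 2))) :=
          mul_le_mul_of_nonneg_right hR2 h2
      _ = _ := by ring

lemma ps14_gauss : ∫⁻ z : ℝ, ENNReal.ofReal (Real.exp (-z ^ 2 / 2)) = ENNReal.ofReal (√(2 * π)) := by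
  rw [← ofReal_integral_eq_lintegral_ofReal]
  · congr 1
    have h := integral_gaussian (1 / 2)
    have h2 : (fun z : ℝ => Real.exp (-z ^ 2 / 2)) = fun z : ℝ => Real.exp (-(1 / 2) * z ^ 2) := by
      funext z; congr 1; ring
    rw [h2, h]
    congr 1
    field_simp
  · have h := integrable_exp_neg_mul_sq (b := 1 / 2) (by norm_num)
    refine h.congr ?_
    refine Eventually.of_forall fun z => ?_
    show Real.exp (-(1 / 2) * z ^ 2) = Real.exp (-z ^ 2 / 2)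
    congr 1; ring
  · exact Eventually.of_forall fun z => (Real.exp_pos _).le

lemma ps14_add {d : ℕ} (k1 k2 k3 : ℝ≥0∞) (f1 f2 f3 : ℝ → EuclideanSpace ℝ (Fin d) → ℝ≥0∞)
    (m1 : Measurable (fun q : ℝ × EuclideanSpace ℝ (Fin d) => f1 q.1 q.2))
    (m2 : Measurable (fun q : ℝ × EuclideanSpace ℝ (Fin d) => f2 q.1 q.2))
    (m3 : Measurable (fun q : ℝ × EuclideanSpace ℝ (Fin d) => f3 q.1 q.2)) :
    ∫⁻ τ : ℝ, ∫⁻ y : EuclideanSpace ℝ (Fin d), (k1 * f1 τ y + k2 * f2 τ y + k3 * f3 τ y)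
      = k1 * (∫⁻ τ : ℝ, ∫⁻ y : EuclideanSpace ℝ (Fin d), f1 τ y)
        + k2 * (∫⁻ τ : ℝ, ∫⁻ y : EuclideanSpace ℝ (Fin d), f2 τ y)
        + k3 * (∫⁻ τ : ℝ, ∫⁻ y : EuclideanSpace ℝ (Fin d), f3 τ y) := by
  have p1 : Measurable (fun τ : ℝ => ∫⁻ y : EuclideanSpace ℝ (Fin d), f1 τ y) :=
    m1.lintegral_prod_right'
  have p2 : Measurable (fun τ : ℝ => ∫⁻ y : EuclideanSpace ℝ (Fin d), f2 τ y) :=
    m2.lintegral_prod_right'
  have p3 : Measurable (fun τ : ℝ => ∫⁻ y : EuclideanSpace ℝ (Fin d), f3 τ y) :=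
    m3.lintegral_prod_right'
  have p12 : Measurable (fun τ : ℝ => k1 * (∫⁻ y : EuclideanSpace ℝ (Fin d), f1 τ y)
      + k2 * (∫⁻ y : EuclideanSpace ℝ (Fin d), f2 τ y)) := (p1.const_mul _).add (p2.const_mul _)
  rw [← lintegral_const_mul _ p1, ← lintegral_const_mul _ p2, ← lintegral_const_mul _ p3,
    ← lintegral_add_left (p1.const_mul _), ← lintegral_add_left p12]
  refine lintegral_congr fun τ => ?_
  have n1 : Measurable (fun y : EuclideanSpace ℝ (Fin d) => f1 τ y) :=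
    m1.comp measurable_prodMk_left
  have n2 : Measurable (fun y : EuclideanSpace ℝ (Fin d) => f2 τ y) :=
    m2.comp measurable_prodMk_left
  have n3 : Measurable (fun y : EuclideanSpace ℝ (Fin d) => f3 τ y) :=
    m3.comp measurable_prodMk_left
  have n12 : Measurable (fun y : EuclideanSpace ℝ (Fin d) => k1 * f1 τ y + k2 * f2 τ y) :=
    (n1.const_mul _).add (n2.const_mul _)
  rw [lintegral_add_left n12,
    lintegral_add_left (n1.const_mul _), lintegral_const_mul _ n1, lintegral_const_mul _ n2,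
    lintegral_const_mul _ n3]

/-- PS-14 -/
theorem II_h3 (m : ℕ) (hm : 3 ≤ m) (c e1 e3 be : ℝ) (hc : 0 < c) (he1 : 0 ≤ e1) (he3 : 0 ≤ e3)
    (he3' : 2 * e3 < 2 * m + 1) (hbe : 0 ≤ be) :
    II (2 * m) (fun z τ y => h3 (2 * m) m c e1 e3 be z τ (‖y‖ ^ 2))
      ≤ ENNReal.ofReal ((m * (m - 1) / 2) / (2 * m) ^ m * (2 * π) ^ ((((2 * m : ℕ) : ℝ) + 1) / 2)
        * (4 * be * (2 * m + 1) ^ (m - 2) * (2 * gm (2 * m - 3))
              * (1 - e3 / (2 * m + 1)) ^ (-((2 * (m : ℝ) + 3) / 2))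
          + e1 ^ 2 * ((2 * m + 1) ^ (m - 2) * (2 * gm (2 * m - 5))
              * ((2 * m + 1) * (2 * m + 3)) * (1 - 2 * e3 / (2 * m + 1)) ^ (-((2 * (m : ℝ) + 5) / 2))
            + e3 ^ (m - 2) * (√c)⁻¹ * √(2 * π) * ((3 * m) ^ m / √(2 * m - 2))))) := by
  have hA := ps14_A_nonneg m hm
  have hm0 : (0 : ℝ) < 2 * m + 1 := by positivity
  set A : ℝ := ((m : ℝ) * (m - 1) / 2) / (2 * m) ^ m with hAdef
  set t : ℝ := e3 / (2 * m + 1) with ht
  have ht0 : 0 ≤ t := by positivity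
  have ht1 : t < 1 / 2 := by rw [ht, div_lt_iff₀ hm0]; linarith
  have ht2 : t / 2 < 1 / 2 := by linarith
  have hgm : ∀ k, 0 ≤ gm k := fun k => (Pool.Agent.Helper20.VF.gm_pos k).le
  set P : ℝ := (2 * m + 1 : ℝ) ^ (m - 2) with hP
  have hP0 : 0 ≤ P := by positivity
  -- the three constants
  set K1 : ℝ := A * (4 * be * P * (2 * gm (2 * m - 3))) with hK1
  set K2 : ℝ := A * (e1 ^ 2 * (P * (2 * gm (2 * m - 5)))) with hK2
  set K3 : ℝ := A * (e1 ^ 2 * (e3 ^ (m - 2) * (√c)⁻¹ * √(2 * π))) with hK3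
  have hK1' : 0 ≤ K1 := by have := hgm (2 * m - 3); positivity
  have hK2' : 0 ≤ K2 := by have := hgm (2 * m - 5); positivity
  have hK3' : 0 ≤ K3 := by positivity
  -- step 1: Tonelli
  unfold II
  rw [ps14_swap (fun z τ y => ENNReal.ofReal (h3 (2 * m) m c e1 e3 be z τ (‖y‖ ^ 2)
    * (gw y * Real.exp (-(z ^ 2 + τ ^ 2) / 2)))) (by
      unfold h3 gw
      fun_prop)]
  -- step 2: bound the inner integral
  have hinner : ∀ (τ : ℝ) (y : EuclideanSpace ℝ (Fin (2 * m))), y ≠ 0 →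
      ∫⁻ z : ℝ, ENNReal.ofReal (h3 (2 * m) m c e1 e3 be z τ (‖y‖ ^ 2)
        * (gw y * Real.exp (-(z ^ 2 + τ ^ 2) / 2)))
      ≤ ENNReal.ofReal K1 * ENNReal.ofReal (τ ^ 2 * Real.exp (t / 2 * (‖y‖ ^ 2 + τ ^ 2))
            * (gw y * Real.exp (-τ ^ 2 / 2)))
        + ENNReal.ofReal K2 * ENNReal.ofReal ((‖y‖ ^ 2 + τ ^ 2) ^ 2
            * Real.exp (t * (‖y‖ ^ 2 + τ ^ 2)) * (gw y * Real.exp (-τ ^ 2 / 2)))
        + ENNReal.ofReal K3 * ENNReal.ofReal ((‖y‖ ^ 2 + τ ^ 2) ^ m * ‖y‖⁻¹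
            * (gw y * Real.exp (-τ ^ 2 / 2))) := by
    intro τ y hy
    have hY : 0 < ‖y‖ ^ 2 := by positivity
    set W : ℝ := ‖y‖ ^ 2 + τ ^ 2 with hW
    have hW0 : 0 < W := by positivity
    set g : ℝ := gw y * Real.exp (-τ ^ 2 / 2) with hg
    have hg0 : 0 ≤ g := by
      have := (Pool.Agent.Helper20.VF.gw_pos y).le
      positivity
    set c1 : ℝ := A * (4 * be * τ ^ 2 * P) * g with hc1
    set c2 : ℝ := A * (e1 ^ 2 * W ^ 2 * P) * g with hc2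
    set c3 : ℝ := A * (e1 ^ 2 * e3 ^ (m - 2) * (√c)⁻¹ * (W ^ m * ‖y‖⁻¹)) * g with hc3
    have hc1' : 0 ≤ c1 := by positivity
    have hc2' : 0 ≤ c2 := by positivity
    have hc3' : 0 ≤ c3 := by positivity
    have htW : 0 ≤ t * W := by positivity
    have hsub : ∀ z : ℝ, 0 ≤ (z ^ 2 + t * W) ^ (m - 2) - (t * W) ^ (m - 2) := fun z =>
      sub_nonneg.2 (pow_le_pow_left₀ htW (by nlinarith [sq_nonneg z]) _)
    have ps14_f1 : ∀ z : ℝ, 0 ≤ c1 * (|z| * (z ^ 2 + t * W) ^ (m - 2) * Real.exp (-z ^ 2 / 2)) :=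
      fun z => by positivity
    have ps14_f2 : ∀ z : ℝ, 0 ≤ c2 * (|z|⁻¹ * ((z ^ 2 + t * W) ^ (m - 2) - (t * W) ^ (m - 2))
        * Real.exp (-z ^ 2 / 2)) := fun z =>
      mul_nonneg hc2' (mul_nonneg (mul_nonneg (by positivity) (hsub z)) (Real.exp_pos _).le)
    have ps14_f3 : ∀ z : ℝ, 0 ≤ c3 * Real.exp (-z ^ 2 / 2) := fun z => by positivity
    calc ∫⁻ z : ℝ, ENNReal.ofReal (h3 (2 * m) m c e1 e3 be z τ (‖y‖ ^ 2)
          * (gw y * Real.exp (-(z ^ 2 + τ ^ 2) / 2)))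
        ≤ ∫⁻ z : ℝ, (ENNReal.ofReal c1
              * ENNReal.ofReal (|z| * (z ^ 2 + t * W) ^ (m - 2) * Real.exp (-z ^ 2 / 2))
            + ENNReal.ofReal c2
              * ENNReal.ofReal (|z|⁻¹ * ((z ^ 2 + t * W) ^ (m - 2) - (t * W) ^ (m - 2))
                * Real.exp (-z ^ 2 / 2))
            + ENNReal.ofReal c3 * ENNReal.ofReal (Real.exp (-z ^ 2 / 2))) := by
          refine lintegral_mono_ae ?_
          have hz0 : ∀ᵐ z : ℝ, z ≠ 0 := by
            have : ({0}ᶜ : Set ℝ) ∈ ae (volume : Measure ℝ) := by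
              rw [mem_ae_iff, compl_compl]; exact Real.volume_singleton
            filter_upwards [this] with z hz using hz
          filter_upwards [hz0] with z hz
          rw [← ENNReal.ofReal_mul hc1', ← ENNReal.ofReal_mul hc2', ← ENNReal.ofReal_mul hc3',
            ← ENNReal.ofReal_add, ← ENNReal.ofReal_add]
          · refine ENNReal.ofReal_le_ofReal ?_
            have hpt := ps14_pt m hm c e1 e3 be z τ (‖y‖ ^ 2) hc he3 hbe hz hY
            rw [Real.sqrt_sq (norm_nonneg y)] at hpt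
            have hexp : gw y * Real.exp (-(z ^ 2 + τ ^ 2) / 2) = g * Real.exp (-z ^ 2 / 2) := by
              rw [hg, mul_assoc, ← Real.exp_add]; congr 2; ring
            rw [hexp]
            have hge : 0 ≤ g * Real.exp (-z ^ 2 / 2) := by positivity
            refine (mul_le_mul_of_nonneg_right hpt hge).trans (le_of_eq ?_)
            rw [hc1, hc2, hc3]
            ring
          · exact add_nonneg (ps14_f1 z) (ps14_f2 z)
          · exact ps14_f3 z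
          · exact ps14_f1 z
          · exact ps14_f2 z
      _ = ENNReal.ofReal c1
              * (∫⁻ z : ℝ, ENNReal.ofReal (|z| * (z ^ 2 + t * W) ^ (m - 2) * Real.exp (-z ^ 2 / 2)))
            + ENNReal.ofReal c2
              * (∫⁻ z : ℝ, ENNReal.ofReal (|z|⁻¹ * ((z ^ 2 + t * W) ^ (m - 2) - (t * W) ^ (m - 2))
                * Real.exp (-z ^ 2 / 2)))
            + ENNReal.ofReal c3 * (∫⁻ z : ℝ, ENNReal.ofReal (Real.exp (-z ^ 2 / 2))) := by
          rw [lintegral_add_left (by fun_prop), lintegral_add_left (by fun_prop),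
            lintegral_const_mul _ (by fun_prop), lintegral_const_mul _ (by fun_prop),
            lintegral_const_mul _ (by fun_prop)]
      _ ≤ ENNReal.ofReal c1 * ENNReal.ofReal (2 * gm (2 * (m - 2) + 1) * Real.exp (t * W / 2))
            + ENNReal.ofReal c2 * ENNReal.ofReal (2 * gm (2 * (m - 2) - 1) * Real.exp (t * W))
            + ENNReal.ofReal c3 * ENNReal.ofReal (√(2 * π)) := by
          refine add_le_add (add_le_add ?_ ?_) ?_
          · exact mul_le_mul_right (int_z1 (m - 2) (t * W) htW) _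
          · exact mul_le_mul_right (int_z2 (m - 2) (by omega) (t * W) htW) _
          · rw [ps14_gauss]
      _ = _ := by
          have e1' : 2 * (m - 2) + 1 = 2 * m - 3 := by omega
          have e2' : 2 * (m - 2) - 1 = 2 * m - 5 := by omega
          rw [e1', e2', ← ENNReal.ofReal_mul hc1', ← ENNReal.ofReal_mul hc2',
            ← ENNReal.ofReal_mul hc3', ← ENNReal.ofReal_mul hK1', ← ENNReal.ofReal_mul hK2',
            ← ENNReal.ofReal_mul hK3']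
          congr 1
          · congr 1
            · congr 1
              have : t * W / 2 = t / 2 * W := by ring
              rw [this, hc1, hK1]; ring
            · congr 1
              rw [hc2, hK2]; ring
          · congr 1
            rw [hc3, hK3]; ring
  -- step 3: integrate
  have hn : Nonempty (Fin (2 * m)) := ⟨⟨0, by omega⟩⟩
  have hnt : Nontrivial (EuclideanSpace ℝ (Fin (2 * m))) := inferInstance
  have hy0 : ∀ᵐ y : EuclideanSpace ℝ (Fin (2 * m)), y ≠ 0 := by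
    have : ({0}ᶜ : Set (EuclideanSpace ℝ (Fin (2 * m)))) ∈ ae volume := by
      rw [mem_ae_iff, compl_compl]; exact measure_singleton _
    filter_upwards [this] with z hz using hz
  calc ∫⁻ τ : ℝ, ∫⁻ y : EuclideanSpace ℝ (Fin (2 * m)), ∫⁻ z : ℝ,
        ENNReal.ofReal (h3 (2 * m) m c e1 e3 be z τ (‖y‖ ^ 2)
          * (gw y * Real.exp (-(z ^ 2 + τ ^ 2) / 2)))
      ≤ ∫⁻ τ : ℝ, ∫⁻ y : EuclideanSpace ℝ (Fin (2 * m)),
        (ENNReal.ofReal K1 * ENNReal.ofReal (τ ^ 2 * Real.exp (t / 2 * (‖y‖ ^ 2 + τ ^ 2))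
            * (gw y * Real.exp (-τ ^ 2 / 2)))
        + ENNReal.ofReal K2 * ENNReal.ofReal ((‖y‖ ^ 2 + τ ^ 2) ^ 2
            * Real.exp (t * (‖y‖ ^ 2 + τ ^ 2)) * (gw y * Real.exp (-τ ^ 2 / 2)))
        + ENNReal.ofReal K3 * ENNReal.ofReal ((‖y‖ ^ 2 + τ ^ 2) ^ m * ‖y‖⁻¹
            * (gw y * Real.exp (-τ ^ 2 / 2)))) := by
        refine lintegral_mono fun τ => lintegral_mono_ae ?_
        filter_upwards [hy0] with y hy using hinner τ y hy
    _ = ENNReal.ofReal K1 * JJ (2 * m) (fun τ y => τ ^ 2 * Real.exp (t / 2 * (‖y‖ ^ 2 + τ ^ 2)))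
        + ENNReal.ofReal K2 * JJ (2 * m) (fun τ y => (‖y‖ ^ 2 + τ ^ 2) ^ 2
            * Real.exp (t * (‖y‖ ^ 2 + τ ^ 2)))
        + ENNReal.ofReal K3 * JJ (2 * m) (fun τ y => (‖y‖ ^ 2 + τ ^ 2) ^ m * ‖y‖⁻¹) := by
        unfold JJ
        have m1 : Measurable (fun q : ℝ × EuclideanSpace ℝ (Fin (2 * m)) =>
            ENNReal.ofReal (q.1 ^ 2 * Real.exp (t / 2 * (‖q.2‖ ^ 2 + q.1 ^ 2))
              * (gw q.2 * Real.exp (-q.1 ^ 2 / 2)))) := by
          unfold gw; fun_prop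
        have m2 : Measurable (fun q : ℝ × EuclideanSpace ℝ (Fin (2 * m)) =>
            ENNReal.ofReal ((‖q.2‖ ^ 2 + q.1 ^ 2) ^ 2 * Real.exp (t * (‖q.2‖ ^ 2 + q.1 ^ 2))
              * (gw q.2 * Real.exp (-q.1 ^ 2 / 2)))) := by
          unfold gw; fun_prop
        have m3 : Measurable (fun q : ℝ × EuclideanSpace ℝ (Fin (2 * m)) =>
            ENNReal.ofReal ((‖q.2‖ ^ 2 + q.1 ^ 2) ^ m * ‖q.2‖⁻¹
              * (gw q.2 * Real.exp (-q.1 ^ 2 / 2)))) := by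
          unfold gw; fun_prop
        exact ps14_add _ _ _ (fun τ y => ENNReal.ofReal (τ ^ 2 * Real.exp (t / 2 * (‖y‖ ^ 2 + τ ^ 2))
              * (gw y * Real.exp (-τ ^ 2 / 2))))
          (fun τ y => ENNReal.ofReal ((‖y‖ ^ 2 + τ ^ 2) ^ 2 * Real.exp (t * (‖y‖ ^ 2 + τ ^ 2))
              * (gw y * Real.exp (-τ ^ 2 / 2))))
          (fun τ y => ENNReal.ofReal ((‖y‖ ^ 2 + τ ^ 2) ^ m * ‖y‖⁻¹
              * (gw y * Real.exp (-τ ^ 2 / 2)))) m1 m2 m3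
    _ ≤ ENNReal.ofReal K1 * ENNReal.ofReal ((2 * π) ^ ((((2 * m : ℕ) : ℝ) + 1) / 2)
            * (1 - 2 * (t / 2)) ^ (-((((2 * m : ℕ) : ℝ) + 3) / 2)))
        + ENNReal.ofReal K2 * ENNReal.ofReal ((2 * π) ^ ((((2 * m : ℕ) : ℝ) + 1) / 2)
            * ((((2 * m : ℕ) : ℝ) + 1) * (((2 * m : ℕ) : ℝ) + 3))
            * (1 - 2 * t) ^ (-((((2 * m : ℕ) : ℝ) + 5) / 2)))
        + ENNReal.ofReal K3 * ENNReal.ofReal ((2 * π) ^ ((((2 * m : ℕ) : ℝ) + 1) / 2)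
            * ((3 * m) ^ m / √(2 * m - 2))) := by
        refine add_le_add (add_le_add ?_ ?_) ?_
        · exact mul_le_mul_right (JJ_tau (2 * m) (t / 2) ht2).le _
        · exact mul_le_mul_right (JJ_sq (2 * m) t ht1).le _
        · exact mul_le_mul_right (JJ_inv m (by omega)) _
    _ = _ := by
        have h12 : 0 ≤ 1 - 2 * (t / 2) := by linarith
        have h13 : 0 ≤ 1 - 2 * t := by linarith
        have hq : (0 : ℝ) ≤ ((2 * m : ℕ) : ℝ) := by positivity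
        rw [← ENNReal.ofReal_mul hK1', ← ENNReal.ofReal_mul hK2', ← ENNReal.ofReal_mul hK3',
          ← ENNReal.ofReal_add (by positivity) (by positivity),
          ← ENNReal.ofReal_add (by positivity) (by positivity)]
        congr 1
        have e1' : 1 - 2 * (t / 2) = 1 - e3 / (2 * m + 1) := by rw [ht]; ring
        have e2' : 1 - 2 * t = 1 - 2 * e3 / (2 * m + 1) := by rw [ht]; ring
        have e3' : (((2 * m : ℕ) : ℝ) + 3) / 2 = (2 * (m : ℝ) + 3) / 2 := by push_cast; ring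
        have e4' : (((2 * m : ℕ) : ℝ) + 5) / 2 = (2 * (m : ℝ) + 5) / 2 := by push_cast; ring
        have e5' : (((2 * m : ℕ) : ℝ) + 1) * (((2 * m : ℕ) : ℝ) + 3)
            = (2 * m + 1) * (2 * m + 3) := by push_cast; ring
        rw [e1', e2', e3', e4', e5', hK1, hK2, hK3]
        ring

end Pool.Agent.Helper19.PS
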