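import Pool.Agent.Helper19.PS.P6
import Pool.Agent.Helper51.PS.P7
import Pool.Agent.Helper19.PS.P9
import Pool.Agent.Helper75.PS.P10
import Pool.Agent.Helper19.PS.P11
import Pool.Agent.Helper19.PS.P14
import Pool.Agent.Helper82.PS.P15

/-!
# Project PS: the second region for normal forms
-/

open MeasureTheory Set Metric Filter Module Matrix
open scoped NNReal Topology RealInnerProductSpace ENNReal Real

namespace Pool.Agent.Helper19.PS

open Pool.Agent.Helper20.VF (gm gw gw_pos continuous_gw gm_pos)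

variable {d : ℕ}

lemma norm_sq_ofLp (y : EuclideanSpace ℝ (Fin d)) : ‖y‖ ^ 2 = y.ofLp ⬝ᵥ y.ofLp := by
  rw [EuclideanSpace.norm_sq_eq, dotProduct]
  refine Finset.sum_congr rfl fun i _ => ?_
  rw [Real.norm_eq_abs, sq_abs, sq]

lemma II_mono {F G : ℝ → ℝ → EuclideanSpace ℝ (Fin d) → ℝ} (h : ∀ z τ y, F z τ y ≤ G z τ y) :
    II d F ≤ II d G := by
  unfold II
  refine lintegral_mono fun p => lintegral_mono fun y => ENNReal.ofReal_le_ofReal ?_
  exact mul_le_mul_of_nonneg_right (h _ _ _) (mul_pos (gw_pos _) (Real.exp_pos _)).le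

lemma II_congr {F G : ℝ → ℝ → EuclideanSpace ℝ (Fin d) → ℝ} (h : ∀ z τ y, F z τ y = G z τ y) :
    II d F = II d G := by
  unfold II
  refine lintegral_congr fun p => lintegral_congr fun y => ?_
  rw [h]

lemma measurable_weight : Measurable (fun q : (ℝ × ℝ) × EuclideanSpace ℝ (Fin d) =>
    gw q.2 * Real.exp (-(q.1.1 ^ 2 + q.1.2 ^ 2) / 2)) := by
  refine Measurable.mul ?_ ?_
  · exact (continuous_gw.comp continuous_snd).measurable
  · exact (by fun_prop : Continuous fun q : (ℝ × ℝ) × EuclideanSpace ℝ (Fin d) =>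
      Real.exp (-(q.1.1 ^ 2 + q.1.2 ^ 2) / 2)).measurable

lemma II_add {F G : ℝ → ℝ → EuclideanSpace ℝ (Fin d) → ℝ}
    (hF : Measurable (fun q : (ℝ × ℝ) × EuclideanSpace ℝ (Fin d) => F q.1.1 q.1.2 q.2))
    (hF0 : ∀ z τ y, 0 ≤ F z τ y) (hG0 : ∀ z τ y, 0 ≤ G z τ y) :
    II d (fun z τ y => F z τ y + G z τ y) = II d F + II d G := by
  have hm : Measurable (fun q : (ℝ × ℝ) × EuclideanSpace ℝ (Fin d) =>
      ENNReal.ofReal (F q.1.1 q.1.2 q.2 * (gw q.2 * Real.exp (-(q.1.1 ^ 2 + q.1.2 ^ 2) / 2)))) :=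
    (hF.mul measurable_weight).ennreal_ofReal
  unfold II
  rw [← lintegral_add_left hm.lintegral_prod_right']
  refine lintegral_congr fun p => ?_
  have hmp : Measurable (fun y : EuclideanSpace ℝ (Fin d) =>
      ENNReal.ofReal (F p.1 p.2 y * (gw y * Real.exp (-(p.1 ^ 2 + p.2 ^ 2) / 2)))) :=
    hm.comp measurable_prodMk_left
  simp only
  rw [← lintegral_add_left hmp]
  refine lintegral_congr fun y => ?_
  have hw := (mul_pos (gw_pos y) (Real.exp_pos (-(p.1 ^ 2 + p.2 ^ 2) / 2))).le
  rw [add_mul, ENNReal.ofReal_add (mul_nonneg (hF0 _ _ _) hw) (mul_nonneg (hG0 _ _ _) hw)]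

lemma II_const_mul {F : ℝ → ℝ → EuclideanSpace ℝ (Fin d) → ℝ} {c : ℝ} (hc : 0 ≤ c) :
    II d (fun z τ y => c * F z τ y) = ENNReal.ofReal c * II d F := by
  unfold II
  rw [← lintegral_const_mul' _ _ ENNReal.ofReal_ne_top]
  refine lintegral_congr fun p => ?_
  rw [← lintegral_const_mul' _ _ ENNReal.ofReal_ne_top]
  refine lintegral_congr fun y => ?_
  rw [mul_assoc, ENNReal.ofReal_mul hc]

lemma continuous_det_G (S : NF d) :
    Continuous (fun q : (ℝ × ℝ) × EuclideanSpace ℝ (Fin d) => (S.G q.1.1 q.1.2 q.2.ofLp).det) := by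
  refine Continuous.matrix_det ?_
  refine continuous_matrix fun i j => ?_
  have hw : ∀ i, Continuous (fun q : (ℝ × ℝ) × EuclideanSpace ℝ (Fin d) =>
      S.w q.1.1 q.1.2 q.2.ofLp i) := by
    intro i
    unfold NF.w
    have h1 : Continuous (fun q : (ℝ × ℝ) × EuclideanSpace ℝ (Fin d) => q.1.1 • S.a i) :=
      (continuous_fst.comp continuous_fst).smul continuous_const
    have h2 : Continuous (fun q : (ℝ × ℝ) × EuclideanSpace ℝ (Fin d) => q.1.2 • S.b i) :=
      (continuous_snd.comp continuous_fst).smul continuous_const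
    have h3 : Continuous (fun q : (ℝ × ℝ) × EuclideanSpace ℝ (Fin d) => S.C i *ᵥ q.2.ofLp) :=
      Continuous.matrix_mulVec continuous_const (by fun_prop)
    exact (h1.add h2).add h3
  have hd : ∀ v : Fin d → ℝ, Continuous (fun q : (ℝ × ℝ) × EuclideanSpace ℝ (Fin d) =>
      v ⬝ᵥ q.2.ofLp) := fun v => Continuous.dotProduct continuous_const (by fun_prop)
  unfold NF.G
  simp only [Matrix.of_apply]
  exact (((hw i).dotProduct (hw j)).add ((hd _).mul (hd _))).add ((hd _).mul (hd _))

lemma RS_nonneg (S : NF d) {c : ℝ} (hc : 0 ≤ c) (τ : ℝ) (y : Fin d → ℝ) : 0 ≤ S.RS c τ y := by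
  have hd : ∀ v : Fin d → ℝ, 0 ≤ v ⬝ᵥ v := fun v => Finset.sum_nonneg fun i _ => mul_self_nonneg _
  unfold NF.RS
  have h1 := hd y
  have h2 : 0 ≤ ∑ i, ((S.b i ⬝ᵥ y) ^ 2 + τ ^ 2 * (S.b i ⬝ᵥ S.b i)
    + (S.C i *ᵥ y) ⬝ᵥ (S.C i *ᵥ y)) := by
    refine Finset.sum_nonneg fun i _ => ?_
    have h3 := hd (S.b i)
    have h4 := hd (S.C i *ᵥ y)
    positivity
  positivity

lemma h3_nonneg {d m : ℕ} (hm : 1 ≤ m) {c e1 e3 be z τ Y : ℝ} (he3 : 0 ≤ e3) (hbe : 0 ≤ be)
    (hY : 0 ≤ Y) : 0 ≤ h3 d m c e1 e3 be z τ Y := by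
  unfold h3
  have h1 : (0 : ℝ) ≤ m - 1 := by
    have : (1 : ℝ) ≤ m := by exact_mod_cast hm
    linarith
  positivity

/-- **The second region for normal forms.** -/
theorem regionII_NF (m : ℕ) (hm : 3 ≤ m) (S : NF (2 * m)) (hbe : S.be ≤ be1 (2 * m)) :
    II (2 * m) (fun z τ y => √((S.G z τ y.ofLp).det))
      ≤ ENNReal.ofReal (Kp (2 * m) * (1 - S.be / 100)) := by
  have hb0 := NF.be_nonneg S
  have hm0 : (3 : ℝ) ≤ m := by exact_mod_cast hm
  have hb1 : S.be ≤ 1 / 8 := by
    refine hbe.trans ?_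
    unfold be1
    push_cast
    rw [div_le_div_iff₀ (by positivity) (by norm_num)]
    nlinarith
  obtain ⟨c, hc⟩ : ∃ c, c = S.be / (4 * m) := ⟨_, rfl⟩
  have hc0 : 0 ≤ c := by rw [hc]; positivity
  have hc1 : c ≤ 1 := by
    rw [hc, div_le_one (by positivity)]
    linarith
  -- symmetrisation
  have h1 : II (2 * m) (fun z τ y => √((S.G z τ y.ofLp).det))
      ≤ II (2 * m) (fun z τ y => √(z ^ 2 + ‖y‖ ^ 2) * S.hh m c z τ y.ofLp) := by
    refine II_sym _ _ ?_ (fun _ _ _ => Real.sqrt_nonneg _) ?_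
    · exact ((continuous_det_G S).sqrt).measurable
    · intro z τ y hz
      rw [norm_sq_ofLp]
      exact NF.sym_bound S m rfl hm c hc0 hc1 z τ hz y.ofLp
  -- the radial inequality
  have h2 := II_rho (d := 2 * m) (by omega) (2 * m - 1) (fun z τ y => S.hh m c z τ y.ofLp)
    (NF.measurable_hh S m c) (fun z τ y => NF.hh_nonneg S m (by omega) c hc0 z τ y.ofLp)
    (fun z τ y r s hr hrs => NF.hh_anti S m (by omega) c hc0 z τ y.ofLp r s hr hrs)
  have e1 : 2 * m + 1 + (2 * m - 1) = 2 * (2 * m) := by omega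
  have e2 : 2 * m + (2 * m - 1) = 2 * (2 * m) - 1 := by omega
  rw [e1, e2] at h2
  refine h1.trans (h2.trans ?_)
  have hrho : (0 : ℝ) ≤ gm (2 * (2 * m)) / gm (2 * (2 * m) - 1) :=
    (div_pos (gm_pos _) (gm_pos _)).le
  have hz0 : (0 : ℝ) < (2 * π) ^ ((((2 * m : ℕ) : ℝ) + 1) / 2) := by positivity
  -- the integral of hh
  have h3' : II (2 * m) (fun z τ y => S.hh m c z τ y.ofLp)
      ≤ ENNReal.ofReal ((2 * π) ^ ((((2 * m : ℕ) : ℝ) + 1) / 2)
        * (2 * gm (2 * m - 1) * (1 - S.be / 100))) := by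
    have hA0 : (0 : ℝ) ≤ 1 - S.be / (2 * m : ℕ) := by
      have : S.be / (2 * m : ℕ) ≤ 1 := by
        push_cast
        rw [div_le_one (by positivity)]
        linarith
      linarith
    have m1 : Measurable (fun q : (ℝ × ℝ) × EuclideanSpace ℝ (Fin (2 * m)) =>
        (1 - S.be / (2 * m : ℕ)) ^ m * |q.1.1| ^ (2 * m - 1)) := by
      exact (by fun_prop : Continuous fun q : (ℝ × ℝ) × EuclideanSpace ℝ (Fin (2 * m)) =>
        (1 - S.be / (2 * m : ℕ)) ^ m * |q.1.1| ^ (2 * m - 1)).measurable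
    have cRS : Continuous (fun q : (ℝ × ℝ) × EuclideanSpace ℝ (Fin (2 * m)) =>
        S.RS c q.1.2 q.2.ofLp) := by
      unfold NF.RS
      have hy : Continuous (fun q : (ℝ × ℝ) × EuclideanSpace ℝ (Fin (2 * m)) => q.2.ofLp) := by
        fun_prop
      refine (continuous_const.mul (hy.dotProduct hy)).add ?_
      refine continuous_finsetSum _ fun i _ => ?_
      have h5 : Continuous (fun q : (ℝ × ℝ) × EuclideanSpace ℝ (Fin (2 * m)) =>
          S.C i *ᵥ q.2.ofLp) := Continuous.matrix_mulVec continuous_const hy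
      exact ((((continuous_const (y := S.b i)).dotProduct hy).pow 2).add
        (((continuous_snd.comp continuous_fst).pow 2).mul continuous_const)).add (h5.dotProduct h5)
    have m2 : Measurable (fun q : (ℝ × ℝ) × EuclideanSpace ℝ (Fin (2 * m)) =>
        1 / 2 * (|q.1.1| ^ (2 * m - 3) * S.RS c q.1.2 q.2.ofLp)) := by
      refine Continuous.measurable ?_
      refine continuous_const.mul (Continuous.mul ?_ cRS)
      fun_prop
    have hsplit : II (2 * m) (fun z τ y => S.hh m c z τ y.ofLp)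
        = II (2 * m) (fun z _ _ => (1 - S.be / (2 * m : ℕ)) ^ m * |z| ^ (2 * m - 1))
          + II (2 * m) (fun z τ y => 1 / 2 * (|z| ^ (2 * m - 3) * S.RS c τ y.ofLp))
          + II (2 * m) (fun z τ y => h3 (2 * m) m c (S.be + c) (2 * S.be + c) S.be z τ (‖y‖ ^ 2)) := by
      rw [← II_add m1, ← II_add]
      · refine II_congr fun z τ y => ?_
        rw [NF.hh, norm_sq_ofLp]
        ring
      · exact m1.add m2
      · intro z τ y
        have := RS_nonneg S hc0 τ y.ofLp
        positivity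
      · intro z τ y
        exact h3_nonneg (by omega) (by positivity) hb0 (by positivity)
      · intro z τ y
        positivity
      · intro z τ y
        have := RS_nonneg S hc0 τ y.ofLp
        positivity
    rw [hsplit, II_const_mul (by positivity), II_const_mul (by norm_num), II_abs_pow,
      II_RS S _ c hc0]
    rcases hb0.lt_or_eq with hpos | h0
    · -- positive deficit
      have hcpos : 0 < c := by rw [hc]; positivity
      have h4 := II_h3 m hm c (S.be + c) (2 * S.be + c) S.be hcpos (by positivity)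
        (by positivity) (by
          have : c ≤ S.be := by
            rw [hc, div_le_iff₀ (by positivity)]
            nlinarith
          linarith) hb0
      have h5 := scalar_ineq m hm S.be c hpos hbe hc
      refine (add_le_add_right h4 _).trans ?_
      rw [← ENNReal.ofReal_mul (by positivity), ← ENNReal.ofReal_mul (by norm_num),
        ← ENNReal.ofReal_add, ← ENNReal.ofReal_add]
      · refine ENNReal.ofReal_le_ofReal ?_
        have h6 := mul_le_mul_of_nonneg_left h5 hz0.le
        refine le_trans (le_of_eq ?_) h6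
        push_cast
        ring
      · have := gm_pos (2 * m - 1)
        have := gm_pos (2 * m - 3)
        positivity
      · have g1 := gm_pos (2 * m - 3)
        have g2 := gm_pos (2 * m - 5)
        have h7 : (0 : ℝ) ≤ m - 1 := by linarith
        have h8 : (2 * S.be + c) / (2 * m + 1) ≤ 1 / 2 := by
          have : c ≤ S.be := by
            rw [hc, div_le_iff₀ (by positivity)]
            nlinarith
          rw [div_le_iff₀ (by positivity)]
          linarith
        have h9 : 0 ≤ 1 - (2 * S.be + c) / (2 * m + 1) := by linarith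
        have h10 : 0 ≤ 1 - 2 * (2 * S.be + c) / (2 * m + 1) := by
          have : 2 * (2 * S.be + c) / (2 * m + 1) = 2 * ((2 * S.be + c) / (2 * m + 1)) := by ring
          rw [this]
          linarith
        positivity
      · have := gm_pos (2 * m - 1)
        positivity
      · have := gm_pos (2 * m - 3)
        positivity
    · -- zero deficit
      have hc00 : c = 0 := by rw [hc, ← h0]; simp
      have hz : II (2 * m) (fun z τ y => h3 (2 * m) m c (S.be + c) (2 * S.be + c) S.be z τ (‖y‖ ^ 2)) = 0 := by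
        have : ∀ (z τ : ℝ) (y : EuclideanSpace ℝ (Fin (2 * m))),
            h3 (2 * m) m c (S.be + c) (2 * S.be + c) S.be z τ (‖y‖ ^ 2) = 0 := by
          intro z τ y
          rw [h3, hc00, ← h0]
          simp
        rw [II_congr this]
        simp [II]
      rw [hz, hc00, ← h0]
      simp only [zero_mul, mul_zero, add_zero, zero_div, sub_zero, one_pow, ENNReal.ofReal_one,
        one_mul, ENNReal.ofReal_zero, mul_one]
      refine ENNReal.ofReal_le_ofReal (le_of_eq ?_)
      ring
  refine (mul_le_mul_right h3' _).trans ?_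
  rw [← ENNReal.ofReal_mul hrho]
  refine ENNReal.ofReal_le_ofReal (le_of_eq ?_)
  rw [Kp]
  ring

end Pool.Agent.Helper19.PS
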