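import Pool.Agent.Helper19.PS.Sharp

/-!
# Project PS: the sharp volume bound for homogeneous unit fields
(adapted from Helper20/VF/NormE.lean, CovD.lean, Final.lean, Const.lean)
-/

open MeasureTheory Set Metric Filter Module Matrix
open scoped NNReal Topology RealInnerProductSpace ENNReal Real

namespace Pool.Agent.Helper19.PS

open Pool.Agent.Helper20.VF

variable {n : ℕ}

lemma KS_pos (n : ℕ) : 0 < KS n := by
  have h1 := gm_pos (2 * n + 4)
  have h2 := gm_pos (2 * n + 3)
  have h3 := gm_pos (2 * (n + 1))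
  have h4 := gm_pos (2 * (n + 1) - 1)
  have h5 := gm_pos (n + 1 - 1)
  unfold KS Kp
  positivity

/-- **The sharp bound for a general pencil.** -/
theorem gen_bound_sharp (m : ℕ) (hm : 3 ≤ m) (hnm : n + 1 = 2 * m) (A : Matrix (Fin (n + 1)) (Fin (n + 1)) ℝ)
    (a : Fin (n + 1) → ℝ) :
    ∫⁻ p : ℝ × ℝ, ∫⁻ y : EuclideanSpace ℝ (Fin (n + 1)), ENNReal.ofReal (√(p.1 ^ 2 + p.2 ^ 2 + ‖y‖ ^ 2)
        * √((Gm A (-1) a y.ofLp p.1 p.2).det)
        * (gw y * Real.exp (-(p.1 ^ 2 + p.2 ^ 2) / 2)))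
      ≤ ENNReal.ofReal (KS n * √((1 + A * Aᵀ + vecMulVec a a).det)) := by
  have hn : 3 ≤ n := by omega
  obtain ⟨t, ht⟩ := (𝓝[≠] (0 : ℝ)).exists_seq_tendsto
  obtain ⟨k0, hk0⟩ := eventually_atTop.1 (ht.eventually (ND_pert hn A))
  set τ : ℕ → ℝ := fun k => t (k + k0) with hτ
  have hτ0 : Tendsto τ atTop (𝓝 0) :=
    ((tendsto_nhdsWithin_iff.1 ht).1).comp (tendsto_add_atTop_nat k0)
  have hAk : Tendsto (fun k => A + τ k • EE hn) atTop (𝓝 A) := by
    have : Tendsto (fun k => A + τ k • EE hn) atTop (𝓝 (A + (0 : ℝ) • EE hn)) :=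
      tendsto_const_nhds.add (hτ0.smul_const _)
    rwa [zero_smul, add_zero] at this
  refine fatou2 (f := fun k p y => ENNReal.ofReal (√(p.1 ^ 2 + p.2 ^ 2 + ‖y‖ ^ 2)
        * √((Gm (A + τ k • EE hn) (-1) a y.ofLp p.1 p.2).det)
        * (gw y * Real.exp (-(p.1 ^ 2 + p.2 ^ 2) / 2)))) ?_ ?_
        (r := fun k => ENNReal.ofReal (KS n * √((1 + (A + τ k • EE hn) * (A + τ k • EE hn)ᵀ
          + vecMulVec a a).det))) ?_ ?_
  · intro k
    have c1 : Continuous (fun q : (ℝ × ℝ) × (EuclideanSpace ℝ (Fin (n + 1))) => Gm (A + τ k • EE hn) (-1) a q.2.ofLp q.1.1 q.1.2) :=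
      continuous_Gm.comp (f := fun q : (ℝ × ℝ) × (EuclideanSpace ℝ (Fin (n + 1))) => (A + τ k • EE hn, a, q.2.ofLp, q.1.1, q.1.2))
        (by fun_prop)
    have c2 : Continuous (fun q : (ℝ × ℝ) × (EuclideanSpace ℝ (Fin (n + 1))) => √(q.1.1 ^ 2 + q.1.2 ^ 2 + ‖q.2‖ ^ 2)
        * √((Gm (A + τ k • EE hn) (-1) a q.2.ofLp q.1.1 q.1.2).det)
        * (gw q.2 * Real.exp (-(q.1.1 ^ 2 + q.1.2 ^ 2) / 2))) := by
      refine (Continuous.mul (by fun_prop) c1.matrix_det.sqrt).mul (Continuous.mul ?_ (by fun_prop))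
      exact continuous_gw.comp continuous_snd
    exact c2.measurable.ennreal_ofReal
  · intro p y
    refine (ENNReal.continuous_ofReal.tendsto _).comp ?_
    refine Tendsto.mul_const _ (Tendsto.const_mul _ ?_)
    have c1 : Continuous (fun M : Matrix (Fin (n + 1)) (Fin (n + 1)) ℝ =>
        √((Gm M (-1) a y.ofLp p.1 p.2).det)) :=
      (continuous_Gm.comp (f := fun M : Matrix (Fin (n + 1)) (Fin (n + 1)) ℝ =>
        (M, a, y.ofLp, p.1, p.2)) (by fun_prop)).matrix_det.sqrt
    exact (c1.tendsto A).comp hAk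
  · refine (ENNReal.continuous_ofReal.tendsto _).comp ?_
    refine Tendsto.const_mul _ ?_
    have c1 : Continuous (fun M : Matrix (Fin (n + 1)) (Fin (n + 1)) ℝ =>
        √((1 + M * Mᵀ + vecMulVec a a).det)) := by
      refine Continuous.sqrt (Continuous.matrix_det ?_)
      exact (continuous_const.add (continuous_id.matrix_mul continuous_id.matrix_transpose)).add
        continuous_const
    exact (c1.tendsto A).comp hAk
  · intro k
    exact gen_bound_ND_sharp m hm hnm hn _ (hk0 _ (by omega)) a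


variable {E : Type*} [NormedAddCommGroup E] [InnerProductSpace ℝ E] [FiniteDimensional ℝ E]
variable [MeasurableSpace E] [BorelSpace E]

/-- **The sharp pointwise upper bound.** -/
theorem upper_unit_sharp (m : ℕ) (hm : 3 ≤ m) (hnm : n + 1 = 2 * m) (hfr : finrank ℝ E = n + 3) {V : E → E} (hV : UField V) {x : E}
    (hx : ‖x‖ = 1) :
    ∫⁻ X : E, ENNReal.ofReal (fw V x X)
      ≤ ENNReal.ofReal (2 ^ (n + 1) * KS n * volDens (tanPart x (fderiv ℝ V x))) := by
  have hx0 : x ≠ 0 := by rintro rfl; simp at hx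
  have hvn : ‖V x‖ = 1 := hV.unit x hx0
  have hxv : ⟪x, V x⟫ = 0 := hV.tang x
  -- the basis
  obtain ⟨b, hb⟩ : ∃ b : OrthonormalBasis (Fin 2 ⊕ Fin (n + 1)) ℝ E,
      b (Sum.inl 0) = x ∧ b (Sum.inl 1) = V x := by
    set w : Fin 2 ⊕ Fin (n + 1) → E := Sum.elim ![x, V x] 0 with hw
    set s : Set (Fin 2 ⊕ Fin (n + 1)) := range Sum.inl with hs
    have hon : Orthonormal ℝ (s.domRestrict w) := by
      constructor
      · rintro ⟨i, k, rfl⟩
        fin_cases k
        · simpa [hw, Set.domRestrict] using hx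
        · simpa [hw, Set.domRestrict] using hvn
      · rintro ⟨i, k, rfl⟩ ⟨j, l, rfl⟩ hkl
        fin_cases k <;> fin_cases l
        · exact absurd rfl hkl
        · simpa [hw, Set.domRestrict] using hxv
        · simpa [hw, Set.domRestrict, real_inner_comm] using hxv
        · exact absurd rfl hkl
    obtain ⟨b, hb⟩ := hon.exists_orthonormalBasis_extension_of_card_eq (by
      rw [hfr]; simp; ring)
    exact ⟨b, by rw [hb _ ⟨0, rfl⟩]; rfl, by rw [hb _ ⟨1, rfl⟩]; rfl⟩
  obtain ⟨hb0, hb1⟩ := hb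
  set T := fderiv ℝ V x with hT
  have hVd : HasFDerivAt V T x :=
    ((hV.smooth.differentiableOn one_ne_zero x hx0).differentiableAt
      (isOpen_U.mem_nhds hx0)).hasFDerivAt
  have hTx : T (b (Sum.inl 0)) = 0 := by
    rw [hb0]
    exact fderiv_apply_self_of_homog (fun X t ht => hV.homog X t ht) hVd.differentiableAt
  have hTv : ∀ δ, ⟪b (Sum.inl 1), T δ⟫ = 0 := by
    intro δ
    rw [hb1]
    have h1 : HasDerivAt (fun t : ℝ => ⟪V (x + t • δ), V (x + t • δ)⟫) (⟪V x, T δ⟫ + ⟪T δ, V x⟫) 0 := by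
      have hc : HasDerivAt (fun t : ℝ => x + t • δ) δ 0 := by
        simpa using ((hasDerivAt_id (0 : ℝ)).smul_const δ).const_add x
      have hu : HasDerivAt (fun t : ℝ => V (x + t • δ)) (T δ) 0 := by
        have : HasFDerivAt V T (x + (0 : ℝ) • δ) := by rw [zero_smul, add_zero]; exact hVd
        exact this.comp_hasDerivAt (0 : ℝ) hc
      simpa using hu.inner ℝ hu
    have h2 : HasDerivAt (fun t : ℝ => ⟪V (x + t • δ), V (x + t • δ)⟫) 0 0 := by
      refine (hasDerivAt_const (0 : ℝ) (1 : ℝ)).congr_of_eventuallyEq ?_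
      have hc : Continuous (fun t : ℝ => x + t • δ) := by fun_prop
      have h3 := (hc.tendsto 0).eventually (isOpen_U.mem_nhds (by simpa using hx0 : x + (0 : ℝ) • δ ∈ ({0}ᶜ : Set E)))
      filter_upwards [h3] with t ht
      rw [real_inner_self_eq_norm_sq, hV.unit _ ht]; norm_num
    have h3 := h1.unique h2
    rw [real_inner_comm (V x) (T δ)] at h3
    linarith
  have hTt : ∀ δ, ⟪b (Sum.inl 0), T δ⟫ = -⟪δ, b (Sum.inl 1)⟫ := by
    intro δ
    rw [hb0, hb1]
    have hc : HasDerivAt (fun t : ℝ => x + t • δ) δ 0 := by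
      simpa using ((hasDerivAt_id (0 : ℝ)).smul_const δ).const_add x
    have h1 : HasDerivAt (fun t : ℝ => ⟪x + t • δ, V (x + t • δ)⟫) (⟪x, T δ⟫ + ⟪δ, V x⟫) 0 := by
      have hu : HasDerivAt (fun t : ℝ => V (x + t • δ)) (T δ) 0 := by
        have : HasFDerivAt V T (x + (0 : ℝ) • δ) := by rw [zero_smul, add_zero]; exact hVd
        exact this.comp_hasDerivAt (0 : ℝ) hc
      simpa using hc.inner ℝ hu
    have h2 : HasDerivAt (fun t : ℝ => ⟪x + t • δ, V (x + t • δ)⟫) 0 0 := by
      refine (hasDerivAt_const (0 : ℝ) (0 : ℝ)).congr_of_eventuallyEq (Eventually.of_forall fun t => ?_)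
      exact hV.tang _
    linarith [h1.unique h2]
  -- change variables
  have hmeas : Measurable (fun X : E => ENNReal.ofReal (fw V x X)) :=
    ((measurable_fw hV).comp measurable_prodMk_left).ennreal_ofReal
  rw [← (measurePreserving_coordMap b).lintegral_comp hmeas]
  have hm2 : Measurable (fun q : (ℝ × ℝ) × (EuclideanSpace ℝ (Fin (n + 1))) => ENNReal.ofReal (fw V x (coordMap b q))) :=
    hmeas.comp (measurePreserving_coordMap b).measurable
  rw [lintegral_prod _ hm2.aemeasurable]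
  have hfw : ∀ (p : ℝ × ℝ) (y : EuclideanSpace ℝ (Fin (n + 1))), ENNReal.ofReal (fw V x (coordMap b (p, y)))
      = ENNReal.ofReal (2 ^ (n + 1)) * ENNReal.ofReal (√(p.1 ^ 2 + p.2 ^ 2 + ‖y‖ ^ 2)
        * √((Gm (Am b T) (-1) (av b T) y.ofLp p.1 p.2).det)
        * (gw y * Real.exp (-(p.1 ^ 2 + p.2 ^ 2) / 2))) := by
    intro p y
    rw [← ENNReal.ofReal_mul (by positivity)]
    congr 1
    have hD : Dp V x (coordMap b (p, y))
        = 2 ^ (n + 1) * √((Gm (Am b T) (-1) (av b T) y.ofLp p.1 p.2).det) := by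
      have := Dd_coord b T hTx hTv hTt (p, y)
      rw [hb0, hb1] at this
      rw [Dp, hx, inv_one, one_smul]
      exact this
    have hN := norm_coordMap b (p, y)
    have hN2 : ‖coordMap b (p, y)‖ = √(p.1 ^ 2 + p.2 ^ 2 + ‖y‖ ^ 2) := by
      rw [← hN, Real.sqrt_sq (norm_nonneg _)]
    have hE : Real.exp (-‖coordMap b (p, y)‖ ^ 2 / 2)
        = gw y * Real.exp (-(p.1 ^ 2 + p.2 ^ 2) / 2) := by
      rw [hN, gw, ← Real.exp_add]
      congr 1
      ring
    rw [fw, hD, hE, hN2]
    ring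
  simp_rw [hfw, lintegral_const_mul' _ _ ENNReal.ofReal_ne_top]
  have hg := gen_bound_sharp m hm hnm (Am b T) (av b T)
  refine (mul_le_mul_right hg _).trans (le_of_eq ?_)
  rw [← ENNReal.ofReal_mul (by positivity)]
  congr 1
  have := volDens_coord b T hTx hTv
  rw [hb0] at this
  rw [this]
  ring


variable {V : E → E}

/-- The main inequality for degree-zero extensions of unit fields. -/
theorem main_UField_sharp (m : ℕ) (hm : 3 ≤ m) (hnm : n + 1 = 2 * m) (hfr : finrank ℝ E = n + 3) (hV : UField V) :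
    2 * kap n * (volume : Measure E).toSphere.real univ
      ≤ 2 ^ (n + 1) * KS n * ∫ u : sphere (0 : E) 1, Jd V u ∂(volume : Measure E).toSphere := by
  have hodd : Odd n := ⟨m - 1, by omega⟩
  have hnt : Nontrivial E := Module.nontrivial_of_finrank_pos (R := ℝ) (by omega)
  set S := (volume : Measure E).toSphere with hS
  have hK0 : 0 ≤ 2 ^ (n + 1) * KS n := by
    have h1 := KS_pos n
    positivity
  have hk0 : 0 ≤ 2 * kap n := by
    have := gm_pos (2 * n + 4)
    have := gm_pos (2 * n + 1)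
    have := gm_pos n
    unfold kap
    positivity
  -- the function `g`
  set g : E → ℝ := fun x => Jd V (‖x‖⁻¹ • x) * Real.exp (-‖x‖ ^ 2 / 2) with hg
  have hnorm : ∀ x : E, x ≠ 0 → ‖‖x‖⁻¹ • x‖ = 1 := fun x hx => by
    rw [norm_smul, norm_inv, norm_norm, inv_mul_cancel₀ (norm_ne_zero_iff.2 hx)]
  have hne : ∀ x : E, x ≠ 0 → ‖x‖⁻¹ • x ≠ 0 := fun x hx h => by
    have := hnorm x hx
    rw [h, norm_zero] at this
    exact zero_ne_one this
  have hJc : ContinuousOn (fun x : E => Jd V (‖x‖⁻¹ • x)) {0}ᶜ := by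
    refine (continuousOn_Jd hV).comp (ContinuousOn.smul (ContinuousOn.inv₀ (by fun_prop)
      (fun x hx => norm_ne_zero_iff.2 hx)) continuousOn_id) (fun x hx => hne x hx)
  have hJm : Measurable (fun x : E => Jd V (‖x‖⁻¹ • x)) :=
    measurable_of_continuousOn_compl_singleton 0 hJc
  obtain ⟨C, hC⟩ := (isCompact_sphere (0 : E) 1).exists_bound_of_continuousOn
    (continuousOn_Jd_sphere hV)
  have hgint : Integrable g := by
    have h0 : Integrable (fun y : E => (1 : ℝ) * gw y) := by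
      have h3 : Hom 0 (fun _ : E => (1 : ℝ)) := ⟨continuous_const, fun r y => by simp⟩
      exact h3.integrable
    refine (h0.const_mul (max C ‖Jd V 0‖)).mono' (hJm.aestronglyMeasurable.mul
      ((by fun_prop : Continuous fun x : E => Real.exp (-‖x‖ ^ 2 / 2)).aestronglyMeasurable))
      (Eventually.of_forall fun x => ?_)
    rw [norm_mul, one_mul, gw, Real.norm_eq_abs (Real.exp _), abs_of_pos (Real.exp_pos _)]
    refine mul_le_mul_of_nonneg_right ?_ (Real.exp_pos _).le
    by_cases hx : x = 0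
    · subst hx
      simp
    · exact (hC _ (by rw [mem_sphere_zero_iff_norm]; exact hnorm x hx)).trans (le_max_left _ _)
  have hg0 : ∀ x, 0 ≤ g x := fun x => mul_nonneg (Jd_nonneg _) (Real.exp_pos _).le
  have hgI : ∫ x, g x = (∫ u : sphere (0 : E) 1, Jd V u ∂S) * gm (finrank ℝ E - 1) := by
    rw [integral_polar_mul g (Jd V) (fun r => Real.exp (-r ^ 2 / 2))]
    · rfl
    · intro u hu r hr
      simp only [hg]
      rw [norm_smul, hu, mul_one, Real.norm_eq_abs, abs_of_pos hr, smul_smul, inv_mul_cancel₀ hr.ne',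
        one_smul]
  have heI : ∫ x : E, Real.exp (-‖x‖ ^ 2 / 2) = S.real univ * gm (finrank ℝ E - 1) := by
    rw [integral_polar_mul _ (fun _ => (1 : ℝ)) (fun r => Real.exp (-r ^ 2 / 2))]
    · rw [integral_const, smul_eq_mul, mul_one]; rfl
    · intro u hu r hr
      rw [norm_smul, hu, mul_one, Real.norm_eq_abs, sq_abs, one_mul]
  have heint : Integrable (fun x : E => Real.exp (-‖x‖ ^ 2 / 2)) := by
    have h3 : Hom 0 (fun _ : E => (1 : ℝ)) := ⟨continuous_const, fun r y => by simp⟩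
    have := h3.integrable
    simpa [gw] using this
  have h2 := partII hV hfr hodd
  have h3 : ∫⁻ x : E, ENNReal.ofReal (Real.exp (-‖x‖ ^ 2 / 2)) * ∫⁻ X : E, ENNReal.ofReal (fw V x X)
      ≤ ENNReal.ofReal (2 ^ (n + 1) * KS n * ∫ x, g x) := by
    calc ∫⁻ x : E, ENNReal.ofReal (Real.exp (-‖x‖ ^ 2 / 2)) * ∫⁻ X : E, ENNReal.ofReal (fw V x X)
        ≤ ∫⁻ x : E, ENNReal.ofReal (2 ^ (n + 1) * KS n) * ENNReal.ofReal (g x) := by
          refine lintegral_mono_ae ?_
          have : ∀ᵐ x : E, x ≠ 0 := by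
            rw [ae_iff]
            simp
          filter_upwards [this] with x hx
          have h4 : ∫⁻ X : E, ENNReal.ofReal (fw V x X)
              ≤ ENNReal.ofReal (2 ^ (n + 1) * KS n * Jd V (‖x‖⁻¹ • x)) := by
            refine le_trans (le_of_eq ?_) (upper_unit_sharp m hm hnm hfr hV (hnorm x hx))
            refine lintegral_congr (fun X => ?_)
            rw [fw_smul_left hV x X (inv_pos.2 (norm_pos_iff.2 hx))]
          refine (mul_le_mul_right h4 _).trans (le_of_eq ?_)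
          rw [← ENNReal.ofReal_mul (Real.exp_pos _).le, ← ENNReal.ofReal_mul hK0]
          congr 1
          simp only [hg]
          ring
      _ = ENNReal.ofReal (2 ^ (n + 1) * KS n * ∫ x, g x) := by
          rw [lintegral_const_mul' _ _ ENNReal.ofReal_ne_top, ENNReal.ofReal_mul hK0,
            ofReal_integral_eq_lintegral_ofReal hgint (Eventually.of_forall hg0)]
  have h5 : ENNReal.ofReal (2 * kap n) * (∫⁻ x : E, ENNReal.ofReal (Real.exp (-‖x‖ ^ 2 / 2)))
      = ENNReal.ofReal (2 * kap n * ∫ x : E, Real.exp (-‖x‖ ^ 2 / 2)) := by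
    rw [ENNReal.ofReal_mul hk0, ofReal_integral_eq_lintegral_ofReal heint
      (Eventually.of_forall fun x => (Real.exp_pos _).le)]
  rw [h5] at h2
  have h6 := h2.trans h3
  rw [ENNReal.ofReal_le_ofReal_iff (mul_nonneg hK0 (integral_nonneg hg0)), hgI, heI] at h6
  have hgm := gm_pos (finrank ℝ E - 1)
  refine le_of_mul_le_mul_right ?_ hgm
  calc _ = 2 * kap n * (S.real univ * gm (finrank ℝ E - 1)) := by ring
    _ ≤ _ := h6
    _ = _ := by ring


/-- **The sharp volume bound for homogeneous unit fields.** -/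
theorem main_UField_cst (m : ℕ) (hm : 3 ≤ m) (hfr : finrank ℝ E = 2 * m + 2) (hV : UField V) :
    cst m * (volume : Measure E).toSphere.real univ
      ≤ ∫ u : sphere (0 : E) 1, Jd V u ∂(volume : Measure E).toSphere := by
  have h := main_UField_sharp (n := 2 * m - 1) m hm (by omega) (by omega) hV
  rw [kap_eq_KS m (by omega)] at h
  have hK0 : 0 < 2 ^ (2 * m - 1 + 1) * KS (2 * m - 1) := by
    have := KS_pos (2 * m - 1)
    positivity
  refine le_of_mul_le_mul_left ?_ hK0
  calc _ = cst m * (2 ^ (2 * m - 1 + 1) * KS (2 * m - 1)) * (volume : Measure E).toSphere.real univ := by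
        ring
    _ ≤ _ := h

end Pool.Agent.Helper19.PS
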