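import Pool.Agent.Helper19.PS.SharpB
import Pool.Agent.Helper20.VF.SphereR

/-!
# Project PS: the sharp bound on the sphere
(adapted from Helper20/VF/AllR.lean and SphereR.lean)
-/

open MeasureTheory Set Metric Filter Module Matrix
open scoped NNReal Topology RealInnerProductSpace ENNReal Real ContDiff Manifold

namespace Pool.Agent.Helper19.PS

open Pool.Agent.Helper20.VF

variable {n : ℕ}
variable {E : Type*} [NormedAddCommGroup E] [InnerProductSpace ℝ E] [FiniteDimensional ℝ E]
variable {V : E → E}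
variable [MeasurableSpace E] [BorelSpace E]

/-- **The bound for all lengths**, for homogeneous fields. -/
theorem main_r_sharp {m : ℕ} (hm : 2 ≤ m) (hfr : finrank ℝ E = 2 * m + 2) (hV : UField V) {r b B : ℝ}
    (hr : 0 < r) (hb : b = min 1 (r ^ 2))
    (h2 : B * (volume : Measure E).toSphere.real univ
      ≤ ∫ u : sphere (0 : E) 1, Jd V u ∂(volume : Measure E).toSphere) :
    ((∑ j ∈ Finset.range (m + 1), ((r ^ 2) ^ j - b ^ m) * (cj m j * (m.choose j : ℝ)))
      + b ^ m * B) * (volume : Measure E).toSphere.real univ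
      ≤ ∫ u : sphere (0 : E) 1, volDens (r • Lw V u) ∂(volume : Measure E).toSphere := by
  have hnt : Nontrivial E := Module.nontrivial_of_finrank_pos (R := ℝ) (by omega)
  set S := (volume : Measure E).toSphere with hS
  have hb0 : 0 < b := by rw [hb]; exact lt_min one_pos (by positivity)
  have hLc : Continuous (fun u : sphere (0 : E) 1 => Lw V u) := by
    refine (continuousOn_Lw hV).comp_continuous continuous_subtype_val (fun u h => ?_)
    have h1 : ‖(u : E)‖ = 1 := mem_sphere_zero_iff_norm.1 u.2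
    rw [mem_singleton_iff] at h
    rw [h, norm_zero] at h1
    exact zero_ne_one h1
  have hcomp : CompactSpace (sphere (0 : E) 1) := isCompact_iff_compactSpace.1 (isCompact_sphere _ _)
  have hint : ∀ f : (E →L[ℝ] E) → ℝ, Continuous f →
      Integrable (fun u : sphere (0 : E) 1 => f (Lw V u)) S := fun f hf =>
    (hf.comp hLc).integrable_of_hasCompactSupport (HasCompactSupport.of_compactSpace _)
  have i1 : ∀ j, Integrable (fun u : sphere (0 : E) 1 =>
      ((r ^ 2) ^ j - b ^ m) * (cj m j * sgE (Lw V u) (2 * j))) S := fun j =>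
    ((hint _ (continuous_sgE (2 * j))).const_mul _).const_mul _
  have i2 : Integrable (fun u : sphere (0 : E) 1 => Jd V u) S := hint _ continuous_volDens
  have i3 : Integrable (fun u : sphere (0 : E) 1 => volDens (r • Lw V u)) S :=
    hint (fun L => volDens (r • L)) (continuous_volDens.comp (continuous_const_smul r))
  have h1 := integral_mono ((integrable_finsetSum (Finset.range (m + 1)) (fun j _ => i1 j)).add
    (i2.const_mul (b ^ m))) i3 (fun u => pointwise_r hV (by omega) hfr
      (mem_sphere_zero_iff_norm.1 u.2) hr hb)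
  refine le_trans ?_ h1
  have e1 : ∫ u : sphere (0 : E) 1, ((∑ j ∈ Finset.range (m + 1),
        ((r ^ 2) ^ j - b ^ m) * (cj m j * sgE (Lw V u) (2 * j))) + b ^ m * Jd V u) ∂S
      = (∑ j ∈ Finset.range (m + 1), ((r ^ 2) ^ j - b ^ m) * (cj m j * (m.choose j : ℝ))) * S.real univ
        + b ^ m * ∫ u : sphere (0 : E) 1, Jd V u ∂S := by
    rw [integral_add (integrable_finsetSum (Finset.range (m + 1)) (fun j _ => i1 j))
      (i2.const_mul (b ^ m)), integral_const_mul, integral_finsetSum _ (fun j _ => i1 j),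
      Finset.sum_mul]
    congr 1
    refine Finset.sum_congr rfl (fun j hj => ?_)
    rw [Finset.mem_range] at hj
    rw [integral_const_mul, integral_const_mul]
    have h3 := Ik_even hV (by omega : 1 ≤ m) hfr (by omega : j ≤ m)
    rw [Ik] at h3
    rw [h3]
    ring
  refine le_trans ?_ (le_of_eq e1.symm)
  have h4 := mul_le_mul_of_nonneg_left h2 (pow_pos hb0 m).le
  linarith

/-- **The volume bound for `C¹` fields of constant length `r`.** -/
theorem fieldVolume_ge_r_sharp (m : ℕ) (hm : 3 ≤ m) {E : Type*} [NormedAddCommGroup E]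
    [InnerProductSpace ℝ E] [FiniteDimensional ℝ E] [MeasurableSpace E] [BorelSpace E]
    [Fact (finrank ℝ E = 2 * m + 1 + 1)] {r : ℝ} (hr : 0 < r)
    (W : sphere (0 : E) 1 → E) (hW : ContMDiff (𝓡 (2 * m + 1)) 𝓘(ℝ, E) 1 W)
    (htan : ∀ x : sphere (0 : E) 1, ⟪(x : E), W x⟫ = 0) (hnorm : ∀ x, ‖W x‖ = r) :
    ((∑ j ∈ Finset.range (m + 1), (m.choose j : ℝ) ^ 2 / ((2 * m).choose (2 * j) : ℝ) * r ^ (2 * j))
        + min 1 (r ^ (2 * m)) * (cst m - 4 ^ m / ((2 * m).choose m : ℝ)))
          * (volume : Measure E).toSphere.real univ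
      ≤ fieldVolume W := by
  set V : sphere (0 : E) 1 → E := fun x => r⁻¹ • W x with hVdef
  have hVW : W = fun x => r • V x := by
    funext x
    rw [hVdef, smul_smul, mul_inv_cancel₀ hr.ne', one_smul]
  have hVs : ContMDiff (𝓡 (2 * m + 1)) 𝓘(ℝ, E) 1 V :=
    (contDiff_const_smul (𝕜 := ℝ) (n := 1) (F := E) r⁻¹).contMDiff.comp hW
  have hVt : ∀ x : sphere (0 : E) 1, ⟪(x : E), V x⟫ = 0 := fun x => by
    rw [hVdef]; simp only [inner_smul_right, htan, mul_zero]
  have hVu : ∀ x, ‖V x‖ = 1 := fun x => by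
    rw [hVdef]
    simp only [norm_smul, norm_inv, Real.norm_eq_abs, abs_of_pos hr, hnorm]
    exact inv_mul_cancel₀ hr.ne'
  have hfr : finrank ℝ E = 2 * m + 2 := Fact.out (p := finrank ℝ E = 2 * m + 1 + 1)
  have hU := uField_radExt hVs hVt hVu
  have h := main_r_sharp (r := r) (b := min 1 (r ^ 2)) (by omega) hfr hU hr rfl
    (main_UField_cst m hm hfr hU)
  have e1 : fieldVolume W = ∫ u : sphere (0 : E) 1, volDens (r • Lw (radExt V) u)
      ∂(volume : Measure E).toSphere := by
    unfold fieldVolume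
    refine integral_congr_ae (Eventually.of_forall (fun x => ?_))
    simp only
    rw [hVW, covDeriv_const_smul, volDens]
  rw [e1]
  refine le_trans (le_of_eq ?_) h
  congr 1
  have hb : (min 1 (r ^ 2)) ^ m = min 1 (r ^ (2 * m)) := by
    rcases le_total 1 (r ^ 2) with h1 | h1
    · rw [min_eq_left h1, one_pow, pow_mul, min_eq_left (one_le_pow₀ h1)]
    · rw [min_eq_right h1, pow_mul, min_eq_right (pow_le_one₀ (by positivity) h1)]
  rw [hb, ← sum_choose_sq, mul_sub, Finset.mul_sum]
  have e2 : ∀ j ∈ Finset.range (m + 1),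
      ((r ^ 2) ^ j - min 1 (r ^ (2 * m))) * (cj m j * (m.choose j : ℝ))
      = (m.choose j : ℝ) ^ 2 / ((2 * m).choose (2 * j) : ℝ) * r ^ (2 * j)
        - min 1 (r ^ (2 * m)) * ((m.choose j : ℝ) ^ 2 / ((2 * m).choose (2 * j) : ℝ)) := by
    intro j _
    rw [cj, ← pow_mul]
    ring
  rw [Finset.sum_congr rfl e2, Finset.sum_sub_distrib]
  ring


end Pool.Agent.Helper19.PS
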