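import Mathlib

/-!
# Pedersen's sharp constant (MP_19c155_gt): the one-variable inequality with a gain
-/

open MeasureTheory Set Metric Filter
open scoped Topology Real

namespace Pool.Agent.Helper19.PS

/-- the one-variable inequality (W) with a gain. -/
def OneVarG (n : ℕ) : Prop := ∀ (u : ℝ) (_ : 0 < u) (_ : u ≤ 1 / 2) (a b g : ℝ)
    (_ : 0 ≤ a) (_ : 0 ≤ b) (_ : a + b = 1),
    (∫ t in (0 : ℝ)..(2 * π),
      ((2 * n + 3) * (((1 - u) * Real.cos t ^ 2 + u * Real.sin t ^ 2) ^ ((n : ℝ) / 2)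
          + n * (a * Real.cos t ^ 2 + b * Real.sin t ^ 2 + g * (Real.sin t * Real.cos t))
            * ((1 - u) * Real.cos t ^ 2 + u * Real.sin t ^ 2) ^ ((n : ℝ) / 2 - 1))
        - (3 * n + 6) * (a * Real.cos t ^ 2 + b * Real.sin t ^ 2 + g * (Real.sin t * Real.cos t))
            * ((1 - u) * Real.cos t ^ 2 + u * Real.sin t ^ 2) ^ ((n : ℝ) / 2)
        + (n + 3) * (u * (1 - u)) * (a * Real.cos t ^ 2 + b * Real.sin t ^ 2
            + g * (Real.sin t * Real.cos t))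
            * ((1 - u) * Real.cos t ^ 2 + u * Real.sin t ^ 2) ^ ((n : ℝ) / 2 - 2)))
      ≤ 2 * (n + 1) * n * (2 * (∫ t in (0 : ℝ)..(2 * π), |Real.cos t| ^ n)
            * (1 - (n * u + b) / (2 * n))
          - ∫ t in (0 : ℝ)..(2 * π), ((1 - u) * Real.cos t ^ 2 + u * Real.sin t ^ 2) ^ ((n : ℝ) / 2))

end Pool.Agent.Helper19.PS
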