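import Pool.Agent.Helper30.PS.P2
import Pool.Agent.Helper50.PS.P3
import Pool.Agent.Helper96.PS.P1

/-!
# PS-4: the pointwise bound for the Gram determinant
-/

set_option autoImplicit false

open MeasureTheory Set Metric Filter Module Matrix
open scoped NNReal Topology RealInnerProductSpace ENNReal Real

namespace Pool.Agent.Helper19.PS

private lemma ps4_sqrt {D B d : ℝ} {m n : ℕ} (hn : n = 2 * m) (hB : 0 ≤ B / d)
    (h : D ≤ (B / d) ^ n) : √D ≤ (B / d) ^ m := by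
  rw [Real.sqrt_le_left (pow_nonneg hB m), ← pow_mul, mul_comm m 2, ← hn]
  exact h

theorem NF.pointwise {d : ℕ} (S : NF d) (m : ℕ) (hd : d = 2 * m) (hm : 1 ≤ m) (c : ℝ)
    (hc0 : 0 ≤ c) (hc1 : c ≤ 1) (z τ : ℝ) (hz : z ≠ 0) (y : Fin d → ℝ) :
    0 ≤ (d - S.be) * z ^ 2 + c * (y ⬝ᵥ y) + S.BB τ y + S.oo c z τ y ∧
    √(S.G z τ y).det ≤ √(z ^ 2 + y ⬝ᵥ y) / √(z ^ 2 + c * (y ⬝ᵥ y))
      * (((d - S.be) * z ^ 2 + c * (y ⬝ᵥ y) + S.BB τ y + S.oo c z τ y) / d) ^ m := by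
  have hd0 : 0 < d := by omega
  have hdR : (0 : ℝ) < d := by exact_mod_cast hd0
  have hz2 : 0 < z ^ 2 := by positivity
  have hY : 0 ≤ y ⬝ᵥ y := by
    rw [dotProduct]
    exact Finset.sum_nonneg fun i _ => mul_self_nonneg _
  have hG := NF.posSemidef_G S z τ y
  have htr := NF.trace_G S z τ y
  have hpp0 : 0 ≤ S.pp y := by
    unfold NF.pp
    exact Finset.sum_nonneg fun i _ => sq_nonneg _
  have hppY := NF.pp_le S y
  have hSS := NF.SS_sq S y
  have hquad := NF.quad_G S z τ y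
  have hcY : c * (y ⬝ᵥ y) ≤ y ⬝ᵥ y := mul_le_of_le_one_left hY hc1
  have hcY0 : 0 ≤ c * (y ⬝ᵥ y) := mul_nonneg hc0 hY
  have hom : 0 < z ^ 2 + y ⬝ᵥ y := by linarith
  have hom' : 0 < z ^ 2 + c * (y ⬝ᵥ y) := by linarith
  set Y := y ⬝ᵥ y with hYdef
  set P := S.pp y with hPdef
  set Gm := S.G z τ y with hGm
  set Sg := S.SS y with hSg
  set BB := S.BB τ y with hBB
  have hsq1 : 0 < √(z ^ 2 + c * Y) := Real.sqrt_pos.mpr hom'
  have hsq2 : 0 < √(z ^ 2 + Y) := Real.sqrt_pos.mpr hom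
  rcases hpp0.eq_or_lt with hP | hP
  · -- degenerate case
    have hSg0 : Sg = 0 := by
      rw [← hP, zero_mul] at hSS
      exact pow_eq_zero_iff (two_ne_zero) |>.mp (le_antisymm hSS (sq_nonneg _))
    have hoo : S.oo c z τ y = 0 := by
      unfold NF.oo
      rw [← hSg, hSg0]
      simp
    obtain ⟨h1, h2⟩ := det_weight hd0 Gm hG (Pi.single (⟨0, hd0⟩ : Fin d) (1 : ℝ))
      (by simp) 1 zero_le_one le_rfl
    rw [sub_self, zero_mul, sub_zero, one_mul] at h2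
    rw [sub_self, zero_mul, sub_zero] at h1
    rw [hoo, add_zero]
    have hle : trace Gm ≤ (d - S.be) * z ^ 2 + c * Y + BB := by
      rw [htr, ← hP]
      linarith
    have hB0 : 0 ≤ (d - S.be) * z ^ 2 + c * Y + BB := h1.trans hle
    refine ⟨hB0, ?_⟩
    have hBd : 0 ≤ ((d - S.be) * z ^ 2 + c * Y + BB) / d := div_nonneg hB0 hdR.le
    have h3 : Gm.det ≤ (((d - S.be) * z ^ 2 + c * Y + BB) / d) ^ d :=
      h2.trans (pow_le_pow_left₀ (div_nonneg h1 hdR.le)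
        (div_le_div_of_nonneg_right hle hdR.le) d)
    have h4 := ps4_sqrt hd hBd h3
    refine h4.trans ?_
    have h5 : 1 ≤ √(z ^ 2 + Y) / √(z ^ 2 + c * Y) := by
      rw [one_le_div hsq1]
      exact Real.sqrt_le_sqrt (by linarith)
    exact le_mul_of_one_le_left (pow_nonneg hBd m) h5
  · -- main case
    have hY0 : 0 < Y := hP.trans_le hppY
    set p : Fin d → ℝ := fun i => S.a i ⬝ᵥ y with hp
    have hpp : p ⬝ᵥ p = P := by
      rw [hPdef, NF.pp, dotProduct]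
      exact Finset.sum_congr rfl fun i _ => by rw [hp]; ring
    set s : ℝ := (z ^ 2 + c * Y) / (z ^ 2 + Y) with hs
    have hs0 : 0 ≤ s := div_nonneg hom'.le hom.le
    have hs1 : s ≤ 1 := by
      rw [hs, div_le_one hom]
      linarith
    have hsqP : 0 < √P := Real.sqrt_pos.mpr hP
    have hsqPP : √P * √P = P := Real.mul_self_sqrt hP.le
    have hv : ((√P)⁻¹ • p) ⬝ᵥ ((√P)⁻¹ • p) = 1 := by
      rw [smul_dotProduct, dotProduct_smul, hpp, smul_eq_mul, smul_eq_mul, ← mul_assoc,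
        ← mul_inv, hsqPP, inv_mul_cancel₀ hP.ne']
    obtain ⟨h1, h2⟩ := det_weight hd0 Gm hG ((√P)⁻¹ • p) hv s hs0 hs1
    have hquad' : ((√P)⁻¹ • p) ⬝ᵥ (Gm *ᵥ ((√P)⁻¹ • p)) = (p ⬝ᵥ (Gm *ᵥ p)) / P := by
      rw [mulVec_smul, smul_dotProduct, dotProduct_smul, smul_eq_mul, smul_eq_mul, ← mul_assoc,
        ← mul_inv, hsqPP, div_eq_inv_mul]
    rw [hquad'] at h1 h2
    have h1s : 1 - s = (1 - c) * Y / (z ^ 2 + Y) := by
      rw [hs, eq_div_iff hom.ne', sub_mul, div_mul_cancel₀ _ hom.ne']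
      ring
    -- the lower bound for the quadratic form
    have hq : (1 - c) * P + (2 * (1 - c) * z * τ * Sg) / (z ^ 2 + Y)
        ≤ (1 - s) * ((p ⬝ᵥ (Gm *ᵥ p)) / P) := by
      have hq1 : (P * (z ^ 2 + Y) + 2 * z * τ * Sg) / Y ≤ (p ⬝ᵥ (Gm *ᵥ p)) / P := by
        rw [div_le_div_iff₀ hY0 hP]
        linarith [hquad]
      have hq2 : (1 - s) * ((P * (z ^ 2 + Y) + 2 * z * τ * Sg) / Y)
          ≤ (1 - s) * ((p ⬝ᵥ (Gm *ᵥ p)) / P) :=
        mul_le_mul_of_nonneg_left hq1 (by linarith)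
      refine le_trans (le_of_eq ?_) hq2
      rw [h1s]
      have hY0' := hY0.ne'
      have hom'' := hom.ne'
      field_simp
    have hoo : S.oo c z τ y = -((2 * (1 - c) * z * τ * Sg) / (z ^ 2 + Y)) := by
      unfold NF.oo
      rw [← hSg, ← hYdef]
    have hle : trace Gm - (1 - s) * ((p ⬝ᵥ (Gm *ᵥ p)) / P)
        ≤ (d - S.be) * z ^ 2 + c * Y + BB + S.oo c z τ y := by
      rw [htr, hoo]
      have : c * P ≤ c * Y := mul_le_mul_of_nonneg_left hppY hc0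
      linarith
    have hB0 : 0 ≤ (d - S.be) * z ^ 2 + c * Y + BB + S.oo c z τ y := h1.trans hle
    refine ⟨hB0, ?_⟩
    set B := (d - S.be) * z ^ 2 + c * Y + BB + S.oo c z τ y with hBdef
    have hBd : 0 ≤ B / d := div_nonneg hB0 hdR.le
    have h3 : s * Gm.det ≤ (B / d) ^ d :=
      h2.trans (pow_le_pow_left₀ (div_nonneg h1 hdR.le)
        (div_le_div_of_nonneg_right hle hdR.le) d)
    have h4 := ps4_sqrt hd hBd h3
    rw [Real.sqrt_mul hs0, hs, Real.sqrt_div hom'.le] at h4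
    rw [div_mul_eq_mul_div, le_div_iff₀ hsq1]
    rw [div_mul_eq_mul_div, div_le_iff₀ hsq2] at h4
    linarith [h4]

end Pool.Agent.Helper19.PS
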